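import Pool.Agent.MP_d171e3_nt.H12.Defs

/-! Siegel lemma with discount, explicit sizes of the jets. -/

namespace Pool.Agent.MP_d171e3_nt.H12

open MvPolynomial Finset
open Pool.Agent.MP_d171e3_nt.H31
open scoped NNReal

variable {κ : Type} [Fintype κ] [DecidableEq κ]

lemma sieg_num {N B J M E k σ : ℕ} (hE : 1 ≤ E) (hσ : 1 ≤ σ) (hk : 1 ≤ k) (hJ : J = E * k)
    (hN : N = k * M) (h : 2 * E ^ 2 * σ ≤ M) (hB : B = σ * J) :
    ((N : ℝ) * 2 ^ B) ^ ((J : ℝ) / ((N : ℝ) - J)) ≤ N * 2 ^ k := by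
  have h1 : 2 * E ≤ M := le_trans (by nlinarith [Nat.mul_le_mul hE hσ]) h
  have h2 : 2 * J ≤ N := by rw [hJ, hN]; nlinarith
  have hJ1 : 1 ≤ J := by rw [hJ]; exact Nat.mul_pos hE hk
  have h2' : 2 * (J : ℝ) ≤ N := by exact_mod_cast h2
  have hJ' : (1 : ℝ) ≤ J := by exact_mod_cast hJ1
  have hd : (0 : ℝ) < (N : ℝ) - J := by linarith
  have h3 : 2 * (B * J) ≤ k * N := by
    rw [hB, hJ, hN]
    calc 2 * (σ * (E * k) * (E * k)) = k * (k * (2 * E ^ 2 * σ)) := by ring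
      _ ≤ _ := by gcongr
  have h3' : 2 * ((B : ℝ) * J) ≤ k * N := by exact_mod_cast h3
  have hk' : (0 : ℝ) ≤ k := Nat.cast_nonneg k
  rw [Real.mul_rpow (by positivity) (by positivity)]
  refine mul_le_mul ?_ ?_ (by positivity) (by positivity)
  · refine (Real.rpow_le_rpow_of_exponent_le (by linarith) (z := 1) ?_).trans (Real.rpow_one _).le
    rw [div_le_one hd]; linarith
  · rw [← Real.rpow_natCast, ← Real.rpow_mul (by norm_num), ← Real.rpow_natCast]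
    refine Real.rpow_le_rpow_of_exponent_le (by norm_num) ?_
    rw [← mul_div_assoc, div_le_iff₀ hd]
    nlinarith

open scoped Matrix.Norms.Elementwise in
theorem aux1 (a : κ → Fin 1 → ℤ) (D E ℓ : ℕ) (hE : 1 ≤ E) (hℓ : 1 ≤ ℓ)
    (hH : 2 * ((∑ j, ∑ l, |(a j l : ℝ)|) + 1) ≤ 2 ^ ℓ)
    (h : 2 * E ^ 2 * (8 * Fintype.card κ * D + ℓ) ≤ D ^ Fintype.card κ) (k : ℕ) (hk : 1 ≤ k) :
    ∃ p : (Fin 1 → Fin k) × (κ → Fin D) → ℤ, p ≠ 0 ∧
      ∑ z, |(p z : ℝ)| ≤ ((k * D ^ Fintype.card κ : ℕ) : ℝ) ^ 2 * 2 ^ k ∧ ∀ T, E * k ≤ T →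
        ev p X (fun j => logT T (lin a X j)) ∈ idealOfVars (Fin 1) ℂ ^ (E * k) := by
  set n := Fintype.card κ with hn
  set H : ℝ := 2 * ((∑ j, ∑ l, |(a j l : ℝ)|) + 1) with hH0
  have H1 : 1 ≤ H := by
    have : (0 : ℝ) ≤ ∑ j, ∑ l, |(a j l : ℝ)| := by positivity
    linarith only [this]
  set J := E * k with hJ
  have hJ1 : 1 ≤ J := Nat.mul_pos hE hk
  let τ : (Fin 1 → Fin J) → (Fin 1 →₀ ℕ) := fun s =>
    Finsupp.equivFunOnFinite.symm fun l => (s l : ℕ)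
  have hτ : ∀ s, (τ s).degree ≤ J := fun s => by
    rw [Finsupp.degree_eq_sum, Fin.sum_univ_one]
    exact (s 0).2.le
  choose A hA using fun (s : Fin 1 → Fin J) (z : (Fin 1 → Fin k) × (κ → Fin D)) =>
    mono_integral a (D := D) (fun l => (z.1 l : ℕ)) (fun j => (z.2 j : ℕ))
      (fun j => (z.2 j).2.le) J (τ s)
  have c1 : Fintype.card (Fin 1 → Fin J) = J := by simp
  have c2 : Fintype.card ((Fin 1 → Fin k) × (κ → Fin D)) = k * D ^ n := by simp [hn]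
  have hσ : 1 ≤ 8 * n * D + ℓ := by omega
  have c3 : 2 * J ≤ k * D ^ n := by
    have h1 : 2 * E ≤ D ^ n := le_trans (by nlinarith [Nat.mul_le_mul hE hσ]) h
    rw [hJ]; nlinarith
  obtain ⟨p, hp0, hp1, hp2⟩ := Int.Matrix.exists_ne_zero_int_vec_norm_le (Matrix.of A)
    (by rw [c1, c2]; omega) (by rw [c1]; exact hJ1)
  have R1 : (1 : ℝ) ≤ 2 ^ ((8 * n * D + ℓ) * J) := one_le_pow₀ (by norm_num)
  have hAR : ‖Matrix.of A‖ ≤ 2 ^ ((8 * n * D + ℓ) * J) := by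
    rw [Matrix.norm_le_iff (by linarith only [R1])]
    intro s z
    have e : ‖Matrix.of A s z‖ = ‖((A s z : ℤ) : ℂ)‖ := by simp [Int.norm_eq_abs]
    rw [e, hA, norm_mul, norm_pow, Complex.norm_natCast]
    have e1 : (Nat.lcmUpto J : ℝ) ≤ 256 ^ J := by exact_mod_cast lcm_le J
    have e2 := (siegel_coeff a (fun l => (z.1 l : ℕ)) (fun j => (z.2 j : ℕ)) J (τ s)).trans
      ((pow_le_pow_right₀ H1 (hτ s)).trans (pow_le_pow_left₀ (by linarith only [H1]) hH J))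
    refine (mul_le_mul (pow_le_pow_left₀ (Nat.cast_nonneg _) e1 _) e2 (norm_nonneg _)
      (by positivity)).trans (le_of_eq ?_)
    rw [show (256 : ℝ) = 2 ^ 8 by norm_num]
    simp only [← pow_mul, ← pow_add]
    congr 1
    ring
  set N : ℝ := ((k * D ^ n : ℕ) : ℝ) with hN
  have c3' : 2 * (J : ℝ) ≤ N := by rw [hN]; exact_mod_cast c3
  have c4' : (1 : ℝ) ≤ J := by exact_mod_cast hJ1
  have hp3 : ‖p‖ ≤ N * 2 ^ k := by
    rw [c1, c2] at hp2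
    refine hp2.trans (le_trans ?_ (sieg_num hE hσ hk hJ rfl h rfl))
    refine Real.rpow_le_rpow (by positivity) ?_ (div_nonneg (by positivity) (by linarith))
    exact mul_le_mul_of_nonneg_left (max_le R1 hAR) (by positivity)
  refine ⟨p, hp0, ?_, fun T hT => ?_⟩
  · calc ∑ z, |(p z : ℝ)| ≤ ∑ _z : (Fin 1 → Fin k) × (κ → Fin D), N * 2 ^ k :=
          Finset.sum_le_sum fun z _ => by
            rw [← Int.norm_eq_abs]; exact (norm_le_pi_norm p z).trans hp3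
      _ = N ^ 2 * 2 ^ k := by rw [Finset.sum_const, card_univ, c2, nsmul_eq_mul, ← hN]; ring
  · have hJ0 : ev p X (fun j => logT J (lin a X j)) ∈ idealOfVars (Fin 1) ℂ ^ J := by
      rw [mem_pow_idealOfVars_iff']
      intro x hx
      let s : Fin 1 → Fin J := fun l => ⟨x l, lt_of_le_of_lt (Finsupp.le_degree l x) hx⟩
      have hs : τ s = x := by ext l; rfl
      have hL : (Nat.lcmUpto J : ℂ) ^ (n * D) ≠ 0 :=
        pow_ne_zero _ (by exact_mod_cast (Nat.lcmUpto_pos J).ne')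
      have e := congrArg (Int.cast : ℤ → ℂ) (congrFun hp1 s)
      simp only [Matrix.mulVec, dotProduct, Matrix.of_apply, Int.cast_sum, Int.cast_mul,
        Pi.zero_apply, Int.cast_zero, hA, hs] at e
      refine (mul_eq_zero.1 (Eq.trans ?_ e)).resolve_left hL
      rw [ev, coeff_sum, Finset.mul_sum]
      refine Finset.sum_congr rfl fun z _ => ?_
      rw [← map_intCast (C : ℂ →+* MvPolynomial (Fin 1) ℂ), coeff_C_mul]
      ring
    rw [← Ideal.Quotient.eq_zero_iff_mem, map_ev] at hJ0 ⊢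
    rw [← hJ0]
    congr 1
    funext j
    rw [Ideal.Quotient.eq]
    refine siegel_tail (Ideal.sum_mem _ fun l _ => Ideal.mul_mem_left _ _ ?_) hT
    exact Ideal.subset_span ⟨l, rfl⟩

theorem small1 {ι : Type} [Fintype ι] [DecidableEq ι] (a : κ → ι → ℤ) {k D : ℕ}
    (p : (ι → Fin k) × (κ → Fin D) → ℤ) (J : ℕ)
    (hJ : ∀ T, J ≤ T → ev p X (fun j => logT T (lin a X j)) ∈ idealOfVars ι ℂ ^ J)
    (L : ℝ) (ξ : ι → ℂ) (hL : 4 * (∑ j, ∑ l, |(a j l : ℝ)| + 1) ≤ L) (hξ : ∀ l, ‖ξ l‖ ≤ 1 / L)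
    (T : ℕ) (τ : ι →₀ ℕ) (hτ : τ.degree ≤ T) :
    ‖coeff τ (eval (fun j => C (Complex.log (1 + lin a ξ j))) (jet a p ξ T))‖ ≤
      (∑ z, |(p z : ℝ)|) * L ^ τ.degree * (4 * (∑ j, ∑ l, |(a j l : ℝ)| + 1) / L) ^ J := by
  have H0 : (0 : ℝ) ≤ ∑ j, ∑ l, |(a j l : ℝ)| := by positivity
  set H : ℝ := ∑ j, ∑ l, |(a j l : ℝ)| + 1 with hH
  have H1 : 1 ≤ H := by linarith only [H0]
  have L0 : 0 < L := by linarith only [H0, hL]
  obtain ⟨ρ, hρ⟩ : ∃ ρ : ℝ≥0, (ρ : ℝ) = 1 / (2 * H) := ⟨⟨_, by positivity⟩, rfl⟩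
  obtain ⟨η, hη⟩ : ∃ η : ℝ≥0, (η : ℝ) = 1 / L := ⟨⟨_, by positivity⟩, rfl⟩
  have ρ0 : (0 : ℝ) < ρ := by rw [hρ]; positivity
  have ρ1 : (ρ : ℝ) * H = 1 / 2 := by rw [hρ]; field_simp
  have η1 : 1 / L * H ≤ 1 / 4 := by
    rw [div_mul_eq_mul_div, div_le_iff₀ L0]
    linarith only [hL]
  have e0 : ∀ j, lin a (fun l => (C (ξ l) + X l : MvPolynomial ι ℂ)) j = C (lin a ξ j) + lin a X j :=
    fun j => by simp only [lin, mul_add, sum_add_distrib, map_sum, C_mul, map_intCast]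
  have key : ∀ n, J ≤ n → ‖coeff τ (ev p (fun l => (C (ξ l) + X l : MvPolynomial ι ℂ))
      fun j => logT n (C (lin a ξ j) + lin a X j))‖ ≤
        (∑ z, |(p z : ℝ)|) * L ^ τ.degree * (4 * H / L) ^ J := by
    intro n hn
    have e1 := N1_translate _ (hJ n hn) ξ η ρ ρ0 (fun l => hη ▸ hξ l) (by
      rw [← NNReal.coe_le_coe, NNReal.coe_mul, hη, NNReal.coe_ofNat]
      nlinarith only [ρ1, η1])
    have e2 := sn_ev_le (N1 ρ) (N1_one ρ).le p (x := (X : ι → MvPolynomial ι ℂ))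
      (y := fun j => logT n (lin a X j)) le_rfl (fun l => by rw [N1_X]; nlinarith only [H0, ρ1])
      fun j => N1_logT_le ρ (small_lin _ (N1_one ρ).le a ρ0.le (fun l => (N1_X ρ l).le) ρ1.le j) n
    rw [one_pow, mul_one] at e2
    simp only [map_ev, map_logT, map_lin, aeval_X] at e1
    simp only [e0] at e1
    have e3 := (coeff_le_N1 η _ τ).trans (e1.trans (mul_le_mul_of_nonneg_left e2 (by positivity)))
    rw [show (2 * η / ρ : ℝ) = 4 * H / L by rw [hη, hρ]; field_simp; ring, hη, one_div, inv_pow,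
      ← div_eq_mul_inv, div_le_iff₀ (by positivity)] at e3
    exact e3.trans (le_of_eq (by ring))
  have hu : ∀ j, lin a (X : ι → MvPolynomial ι ℂ) j ∈ idealOfVars ι ℂ := fun j =>
    Ideal.sum_mem _ fun l _ => Ideal.mul_mem_left _ _ (Ideal.subset_span ⟨l, rfl⟩)
  have hβ : ∀ j, ‖lin a ξ j‖ < 1 := fun j =>
    (small_linC a (one_div_pos.2 L0).le hξ η1 j).trans_lt (by norm_num)
  have lim := tendsto_ev p (fun l => (C (ξ l) + X l : MvPolynomial ι ℂ))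
    (fun n j => logT n (C (lin a ξ j) + lin a X j))
    (fun j => C (Complex.log (1 + lin a ξ j)) + logT T (C (1 + lin a ξ j)⁻¹ * lin a X j)) T
    (fun j τ' hτ' => tendsto_logT _ (hβ j) _ (hu j) T τ' hτ') τ hτ
  simp only [jet, map_ev, map_add, eval_C, eval_X]
  exact le_of_tendsto lim.norm (Filter.eventually_atTop.2 ⟨J, key⟩)

theorem height1 {ι : Type} [Fintype ι] [DecidableEq ι] (a : κ → ι → ℤ) {k D : ℕ}
    (p : (ι → Fin k) × (κ → Fin D) → ℤ) (ξ : ι → ℂ)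
    (hξ : ∀ l, ‖ξ l‖ ≤ 1 / (4 * (∑ j, ∑ l, |(a j l : ℝ)| + 1)))
    (T : ℕ) (τ : ι →₀ ℕ) (I : Finset (κ →₀ ℕ)) :
    ∑ γ ∈ I, ‖coeff τ (coeff γ (jet a p ξ T))‖ ≤ (∑ z, |(p z : ℝ)|) * 2 ^ (Fintype.card κ * D) *
      (4 * (∑ j, ∑ l, |(a j l : ℝ)| + 1)) ^ τ.degree := by
  have H0 : (0 : ℝ) ≤ ∑ j, ∑ l, |(a j l : ℝ)| := by positivity
  set H : ℝ := ∑ j, ∑ l, |(a j l : ℝ)| + 1 with hH
  have H1 : 1 ≤ H := by linarith
  obtain ⟨ρ, hρ⟩ : ∃ ρ : ℝ≥0, (ρ : ℝ) = 1 / (4 * H) := ⟨⟨_, by positivity⟩, rfl⟩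
  rw [← hρ] at hξ
  have ρ0 : (0 : ℝ) < ρ := by rw [hρ]; positivity
  have ρ1 : (ρ : ℝ) * H = 1 / 4 := by rw [hρ]; field_simp
  have e1 : wn (N1 ρ) 1 (jet a p ξ T) ≤ (∑ z, |(p z : ℝ)|) * 2 ^ (Fintype.card κ * D) := by
    refine sn_ev_le _ (by rw [wn_one, N1_one]) p one_le_two (fun l => ?_) fun j => ?_
    · rw [wn_C]
      refine (map_add_le_add _ _ _).trans ?_
      rw [N1_C, N1_X]
      nlinarith only [hξ l, H0, ρ1]
    · have e2 : ‖lin a ξ j‖ ≤ 1 / 4 := small_linC a ρ0.le hξ ρ1.le j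
      have e3 : ‖(1 + lin a ξ j)⁻¹‖ ≤ 2 := by
        have := norm_sub_le (1 + lin a ξ j) (lin a ξ j)
        rw [add_sub_cancel_right, norm_one] at this
        rw [norm_inv]
        exact inv_le_of_inv_le₀ two_pos (by linarith only [e2, this])
      have e4 := sn_mul_le (N1 ρ) ((N1_C (σ := ι) ρ _).le.trans e3)
        (small_lin _ (N1_one ρ).le a ρ0.le (fun l => (N1_X ρ l).le) ρ1.le j)
      refine (map_add_le_add _ _ _).trans ?_
      rw [wn_X, wn_C, N1_one]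
      have := N1_logT_le ρ (e4.trans (by norm_num)) T
      simp only [NNReal.coe_one]
      linarith only [this]
  have e2 : (∑ γ ∈ I, ‖coeff τ (coeff γ (jet a p ξ T))‖) * (ρ : ℝ) ^ τ.degree ≤
      (∑ z, |(p z : ℝ)|) * 2 ^ (Fintype.card κ * D) := by
    rw [Finset.sum_mul]
    refine le_trans (Finset.sum_le_sum fun γ _ => ?_) ((sum_le_wn (N1 ρ) 1 _ I).trans e1)
    simpa only [NNReal.coe_one, one_pow, mul_one] using coeff_le_N1 ρ _ τ
  rwa [hρ, one_div, inv_pow, ← div_eq_mul_inv, div_le_iff₀ (by positivity)] at e2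

end Pool.Agent.MP_d171e3_nt.H12
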