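import Pool.Agent.MP_d171e3_nt.H12.ZE
import Pool.Agent.MP_d171e3_nt.H12.Sieg

/-! Many translates of a fixed pattern cannot all have logarithms of low rank. -/

namespace Pool.Agent.MP_d171e3_nt.H12

open MvPolynomial Finset
open Pool.Agent.MP_d171e3_nt.H31
open Pool.Agent.MP_d171e3_nt.H48 (lg box mem_box mon)

lemma core_den {n D ℓ k t u m q0 : ℕ} {q : Fin n → ℕ} (h0 : q0 ≤ 2 ^ ℓ) (hq : ∀ j, q j ≤ 2 ^ ℓ)
    (hk : k ≤ u) (ht : n * D * t ≤ u) (hm : n * m ≤ u) :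
    q0 ^ k * Nat.lcmUpto t ^ (n * D) * (∏ j, q j) ^ m ≤ 2 ^ ((2 * ℓ + 8) * u) := by
  have h1 : ∏ j, q j ≤ (2 ^ ℓ) ^ n := by
    simpa only [card_univ, Fintype.card_fin] using
      Finset.prod_le_pow_card univ q (2 ^ ℓ) fun j _ => hq j
  have h2 := lcm_le t
  calc _ ≤ (2 ^ ℓ) ^ k * (256 ^ t) ^ (n * D) * ((2 ^ ℓ) ^ n) ^ m := by gcongr
    _ = 2 ^ (ℓ * k + 8 * (n * D * t) + ℓ * (n * m)) := by
        rw [show 256 = 2 ^ 8 by norm_num]
        simp only [← pow_mul, ← pow_add]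
        congr 1
        ring
    _ ≤ _ := Nat.pow_le_pow_right two_pos (by
        have := Nat.mul_le_mul_left ℓ hk
        have := Nat.mul_le_mul_left ℓ hm
        nlinarith)

lemma core_aux {k M g c : ℕ} (h : M + g ≤ c) : (k * M) ^ 2 * 2 ^ k * 2 ^ g ≤ 2 ^ (3 * (k + c)) := by
  have h1 := (Nat.lt_two_pow_self (n := k)).le
  have h2 := (Nat.lt_two_pow_self (n := M)).le
  calc _ ≤ (2 ^ k * 2 ^ M) ^ 2 * 2 ^ k * 2 ^ g := by gcongr
    _ = 2 ^ (3 * k + 2 * M + g) := by ring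
    _ ≤ _ := Nat.pow_le_pow_right two_pos (by omega)

theorem core {n D Δ ℓ N : ℕ} (hnum : Num n D Δ ℓ) (a : Fin n → ℤ) (ha : Function.Injective a)
    (ha0 : ∀ j, a j ≠ 0) (hN : 8 * (∑ j, |a j| + 1) ≤ N) (B : Finset ℕ)
    (hB : n * D ^ (n + 1) ≤ B.card) (q : ℕ → Fin n → ℕ)
    (hq : ∀ q0 ∈ B, N ≤ q0 ∧ q0 ≤ 2 ^ ℓ ∧ ∀ j, (q q0 j : ℤ) = q0 + a j ∧ q q0 j ≤ 2 ^ ℓ)
    (hr : ∀ q0 ∈ B, LowAt D Δ q0 (q q0)) : False := by
  classical
  obtain ⟨hn1, hD1, hM⟩ := hnum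
  obtain ⟨G, hG⟩ : ∃ G, G = (Δ + 1) * (3 * ℓ + 11) := ⟨_, rfl⟩
  rw [← hG] at hM
  obtain ⟨a', ha'⟩ : ∃ a' : Fin n → Fin 1 → ℤ, a' = fun j _ => a j := ⟨_, rfl⟩
  obtain ⟨H, hH⟩ : ∃ H : ℝ, H = ∑ j, ∑ l, |(a' j l : ℝ)| + 1 := ⟨_, rfl⟩
  have hHN : 8 * H ≤ N := by
    have : ((8 * (∑ j, |a j| + 1) : ℤ) : ℝ) ≤ ((N : ℤ) : ℝ) := by exact_mod_cast hN
    rw [hH, ha']
    simpa using this
  have H1 : 1 ≤ H := by
    have : (0 : ℝ) ≤ ∑ j, ∑ l, |(a' j l : ℝ)| := by positivity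
    linarith only [this, hH]
  have hM0 : 0 < D ^ n := by positivity
  have hnD : 0 < n * D := by positivity
  obtain ⟨b0, hb0⟩ : B.Nonempty := card_pos.1 (lt_of_lt_of_le (by positivity) hB)
  have hNℓ : N ≤ 2 ^ ℓ := (hq b0 hb0).1.trans (hq b0 hb0).2.1
  have hNℓ' : (N : ℝ) ≤ 2 ^ ℓ := by exact_mod_cast hNℓ
  have hN8 : 8 ≤ N := by
    have : (8 : ℝ) ≤ N := by linarith only [hHN, H1]
    exact_mod_cast this
  have hℓ : 1 ≤ ℓ := by
    rcases Nat.eq_zero_or_pos ℓ with rfl | h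
    · omega
    · exact h
  have hN0 : (0 : ℝ) < N := by linarith only [hHN, H1]
  have hq0 : ∀ i : B, 0 < i.1 := fun i => by have := (hq i.1 i.2).1; omega
  have hqp : ∀ (i : B) j, 0 < q i j := fun i j => by
    have h1 := ((hq i.1 i.2).2.2 j).1
    have h2 : (N : ℤ) ≤ i.1 := by exact_mod_cast (hq i.1 i.2).1
    have h3 := Finset.single_le_sum (f := fun j => |a j|) (fun _ _ => abs_nonneg _) (mem_univ j)
    have h4 := neg_abs_le (a j)
    have h5 := abs_nonneg (a j)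
    have : (0 : ℤ) < q i j := by linarith
    exact_mod_cast this
  have hlin : ∀ (i : B) j, (q i j : ℤ) = i.1 + lin a' (fun _ => (1 : ℤ)) j := fun i j => by
    rw [((hq i.1 i.2).2.2 j).1, ha']; simp [lin]
  have hq0c : ∀ i : B, ((i.1 : ℕ) : ℂ) ≠ 0 := fun i => by exact_mod_cast (hq0 i).ne'
  have hqc : ∀ (i : B) j, (q i j : ℂ) ≠ 0 := fun i j => by exact_mod_cast (hqp i j).ne'
  obtain ⟨ξ, hξ⟩ : ∃ ξ : B → Fin 1 → ℂ, ξ = fun i _ => ((1 : ℤ) : ℂ) / (i.1 : ℕ) := ⟨_, rfl⟩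
  have hu : ∀ (i : B) j, 1 + lin a' (ξ i) j = (q i j : ℂ) / (i.1 : ℕ) := by
    intro i j
    have h1 : (q i j : ℂ) = (i.1 : ℕ) + a j := by exact_mod_cast ((hq i.1 i.2).2.2 j).1
    have := hq0c i
    rw [h1, hξ, ha']
    simp only [lin, Fin.sum_univ_one]
    field_simp
    simp
  have hξL : ∀ i l, ‖ξ i l‖ ≤ 1 / N := by
    intro i l
    have h1 : (N : ℝ) ≤ (i.1 : ℕ) := by exact_mod_cast (hq i.1 i.2).1
    rw [hξ]
    simp only [norm_div, Complex.norm_natCast, Int.cast_one, norm_one]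
    exact one_div_le_one_div_of_le hN0 h1
  have hinj : Function.Injective ξ := by
    intro i i' h
    have h1 := congrFun h 0
    rw [hξ] at h1
    simp only [Int.cast_one, one_div, inv_inj, Nat.cast_inj] at h1
    exact Subtype.ext h1
  obtain ⟨c0, hZE⟩ := ze1 a' (by rw [ha']; exact ha) (by rw [ha']; exact ha0) hD1
  obtain ⟨lam, hlam⟩ : ∃ lam : B → Fin n → ℂ,
    lam = fun i j => Complex.log (1 + lin a' (ξ i) j) := ⟨_, rfl⟩
  have hlam' : ∀ i, lam i = fun j => lg (q i j) - lg i.1 := by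
    intro i
    funext j
    have h2 : (0 : ℝ) < (i.1 : ℕ) := by exact_mod_cast hq0 i
    have h3 : (0 : ℝ) < q i j := by exact_mod_cast hqp i j
    rw [hlam]
    simp only [hu]
    rw [show (q i j : ℂ) / (i.1 : ℕ) = (((q i j : ℝ) / (i.1 : ℕ) : ℝ) : ℂ) by push_cast; rfl,
      ← Complex.ofReal_log (by positivity), Real.log_div h3.ne' h2.ne', Complex.ofReal_sub]
    rfl
  have hK : ∀ i : B, ∃ K : ℝ, 0 < K ∧ ∀ {T : Type} (A : T → box (Fin n) D → ℤ) (H η : ℝ),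
      1 ≤ H → 0 ≤ η → (∀ τ, ∑ γ, |(A τ γ : ℝ)| ≤ H) →
      (∀ τ, ‖∑ γ, (A τ γ : ℂ) * mon (lam i) γ.1‖ ≤ η) →
      (1 : ℂ) ∈ Submodule.span ℚ (Set.range fun τ => ∑ γ, (A τ γ : ℂ) * mon (lam i) γ.1) →
      1 ≤ K * H ^ Δ * η := by
    intro i
    obtain ⟨S0, hS0, hS1⟩ := hr i.1 i.2
    exact final_la (fun γ : box (Fin n) D => mon (lam i) γ.1) Δ S0 hS0 fun γ => by
      rw [hlam']; exact hS1 _ γ.2
  choose K hK0 hK using hK
  obtain ⟨c2, hc2⟩ : ∃ c2, c2 = c0 + n * D + n * D * D ^ n := ⟨_, rfl⟩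
  obtain ⟨k, hk1, hkK⟩ : ∃ k : ℕ, 1 ≤ k ∧ (∑ i, K i) * 2 ^ (G * c2) * (1 / 2 : ℝ) ^ k < 1 := by
    have h1 := (tendsto_pow_atTop_nhds_zero_of_lt_one (r := (1 / 2 : ℝ)) (by norm_num)
      (by norm_num)).const_mul ((∑ i, K i) * 2 ^ (G * c2))
    rw [mul_zero] at h1
    obtain ⟨k, hk⟩ := ((h1.eventually (gt_mem_nhds zero_lt_one)).and
      (Filter.eventually_ge_atTop 1)).exists
    exact ⟨k, hk.2, hk.1⟩
  obtain ⟨p, hp0, hpc, hpJ⟩ := aux1 a' D (G + 1) ℓ (by omega) hℓ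
    (by rw [← hH]; linarith only [hHN, hNℓ', H1]) (by simpa using hM) k hk1
  rw [Fintype.card_fin] at hpc hZE
  obtain ⟨o, ho⟩ : ∃ o, o = (k + c0) / (n * D) + 1 := ⟨_, rfl⟩
  obtain ⟨t, ht⟩ : ∃ t, t = o + D ^ n := ⟨_, rfl⟩
  have ho1 : k + c0 < n * D * o := by rw [ho]; exact Nat.lt_mul_div_succ _ hnD
  have ho2 : n * D * t ≤ k + c2 := by
    have := Nat.mul_div_le (k + c0) (n * D)
    rw [ht, ho, hc2]
    nlinarith
  have hτ1 : ∀ m, m < t → n * m ≤ k + c2 := fun m hm =>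
    le_trans (Nat.mul_le_mul (Nat.le_mul_of_pos_right _ hD1) hm.le) ho2
  have hτ2 : ∀ m, m < t → m ≤ k + c2 := fun m hm =>
    le_trans (Nat.le_mul_of_pos_left _ hn1) (hτ1 m hm)
  have hz := fun (i : B) (τ : Fin 1 →₀ ℕ) (γ : Fin n →₀ ℕ) => jet_integral a' p i.1 (q i)
    (fun _ => 1) (hq0 i).ne' (fun j => (hqp i j).ne') (hlin i) t τ γ
  choose z hz using hz
  obtain ⟨den, hden⟩ : ∃ den : B → (Fin 1 →₀ ℕ) → ℕ, den = fun (i : B) (τ : Fin 1 →₀ ℕ) =>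
    i.1 ^ k * Nat.lcmUpto t ^ (n * D) * (∏ j, q i j) ^ τ.degree := ⟨_, rfl⟩
  have hz' : ∀ i τ γ, (z i τ γ : ℂ) = den i τ * coeff τ (coeff γ (jet a' p (ξ i) t)) := by
    intro i τ γ
    rw [hz, hden, hξ, Fintype.card_fin, Fintype.card_fin, one_mul]
    push_cast
    rfl
  have hden0 : ∀ i τ, (den i τ : ℂ) ≠ 0 := by
    intro i τ
    have h1 := Nat.lcmUpto_pos t
    have h2 : 0 < ∏ j, q i j := Finset.prod_pos fun j _ => hqp i j
    have h3 := hq0 i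
    rw [hden]
    exact Nat.cast_ne_zero.2 (by positivity)
  have hdenle : ∀ i (τ : Fin 1 →₀ ℕ), τ.degree < t →
      (den i τ : ℝ) ≤ 2 ^ ((2 * ℓ + 8) * (k + c2)) := by
    intro i τ hτ
    have := core_den (D := D) (k := k) (hq i.1 i.2).2.1 (fun j => ((hq i.1 i.2).2.2 j).2)
      (Nat.le_add_right _ _) ho2 (hτ1 _ hτ)
    rw [hden]
    exact_mod_cast this
  obtain ⟨i, hi⟩ : ∃ i, (1 : ℂ) ∈ Submodule.span ℚ (Set.range
      fun τ : {τ : Fin 1 →₀ ℕ // τ.degree < t} =>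
        ∑ γ : box (Fin n) D, (z i τ.1 γ.1 : ℂ) * mon (lam i) γ.1) := by
    by_contra hcon
    push Not at hcon
    choose ψ hψ1 hψ using fun i => exists_functional _ (hcon i)
    obtain ⟨i, τ, hτ, hne⟩ := hZE ξ hinj (fun i j => by rw [hu]; exact div_ne_zero (hqc i j) (hq0c i))
      k p hp0 o (by
        rw [Fintype.card_coe]
        calc D ^ n * (k + c0) < D ^ n * (n * D * o) := Nat.mul_lt_mul_of_pos_left ho1 hM0
          _ = n * D ^ (n + 1) * o := by ring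
          _ ≤ _ := Nat.mul_le_mul_right _ hB) (box (Fin n) D)
      (fun i γ => (ψ i (mon (lam i) γ) : ℂ)) (mem_box.2 fun j => by simp)
      (fun i => by simp [mon, hψ1])
    rw [← ht] at hτ hne
    apply hne
    apply mul_left_cancel₀ (hden0 i τ)
    have h1 := hψ i _ (Submodule.subset_span ⟨⟨τ, hτ⟩, rfl⟩)
    simp only [map_sum, ← zsmul_eq_mul, map_zsmul] at h1
    have h2 := congrArg (fun x : ℚ => (x : ℂ)) h1
    simp only [zsmul_eq_mul, Rat.cast_sum, Rat.cast_mul, Rat.cast_intCast, Rat.cast_zero] at h2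
    rw [mul_zero, ← h2, Finset.mul_sum, ← Finset.sum_coe_sort]
    refine Finset.sum_congr rfl fun γ _ => ?_
    rw [hz']; ring
  have hp1 : (0 : ℝ) ≤ ∑ z, |(p z : ℝ)| := by positivity
  have hp2 : (∑ z, |(p z : ℝ)|) * 2 ^ (n * D) ≤ 2 ^ (3 * (k + c2)) := by
    have h1 := core_aux (k := k) (M := D ^ n) (g := n * D) (c := c2) (by
      have := Nat.le_mul_of_pos_left (D ^ n) hnD
      omega)
    refine (mul_le_mul_of_nonneg_right hpc (by positivity)).trans ?_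
    exact_mod_cast h1
  have hp3 : ∑ z, |(p z : ℝ)| ≤ 2 ^ (3 * (k + c2)) :=
    (le_mul_of_one_le_right hp1 (one_le_pow₀ (by norm_num))).trans hp2
  have hpow : ∀ (x : ℝ) (m : ℕ), 0 ≤ x → x ≤ N → m < t → x ^ m ≤ 2 ^ (ℓ * (k + c2)) := by
    intro x m h0 h1 h2
    rw [pow_mul]
    exact (pow_le_pow_left₀ h0 (h1.trans hNℓ') m).trans
      (pow_le_pow_right₀ (one_le_pow₀ (by norm_num)) (hτ2 m h2))
  have hfin := hK i (fun (τ : {τ : Fin 1 →₀ ℕ // τ.degree < t}) γ => z i τ.1 γ.1)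
    (2 ^ ((3 * ℓ + 11) * (k + c2))) (2 ^ ((3 * ℓ + 11) * (k + c2)) * (1 / 2) ^ ((G + 1) * k))
    (one_le_pow₀ (by norm_num)) (by positivity) (fun τ => ?_) (fun τ => ?_) hi
  · have h3 : K i ≤ ∑ i, K i :=
      Finset.single_le_sum (f := K) (fun j _ => (hK0 j).le) (mem_univ i)
    have h4 : ((2 : ℝ) ^ ((3 * ℓ + 11) * (k + c2))) ^ Δ *
        (2 ^ ((3 * ℓ + 11) * (k + c2)) * (1 / 2) ^ ((G + 1) * k)) =
        2 ^ (G * c2) * (1 / 2) ^ k := by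
      rw [← mul_assoc, ← pow_succ, ← pow_mul,
        show (3 * ℓ + 11) * (k + c2) * (Δ + 1) = G * c2 + G * k by rw [hG]; ring,
        show (G + 1) * k = G * k + k by ring, pow_add, pow_add, mul_assoc,
        ← mul_assoc (2 ^ (G * k)), ← mul_pow]
      norm_num
    rw [mul_assoc, h4] at hfin
    rw [mul_assoc] at hkK
    have h5 := mul_le_mul_of_nonneg_right h3
      (show (0 : ℝ) ≤ 2 ^ (G * c2) * (1 / 2) ^ k by positivity)
    linarith only [hkK, hfin, h5]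
  · have h1 := height1 a' p (ξ i) (fun l => (hξL i l).trans (by
      rw [← hH]; exact one_div_le_one_div_of_le (by linarith only [H1])
        (by linarith only [H1, hHN]))) t τ.1 (box (Fin n) D)
    have h2 : ∀ γ, |(z i τ.1 γ : ℝ)| = den i τ.1 * ‖coeff τ.1 (coeff γ (jet a' p (ξ i) t))‖ := by
      intro γ
      rw [← Complex.norm_intCast, hz', norm_mul, Complex.norm_natCast]
    simp only [h2]
    rw [← Finset.mul_sum, Finset.sum_coe_sort (box (Fin n) D)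
      fun γ => ‖coeff τ.1 (coeff γ (jet a' p (ξ i) t))‖]
    rw [Fintype.card_fin, ← hH] at h1
    have h4 := hpow (4 * H) _ (by linarith only [H1]) (by linarith only [H1, hHN]) τ.2
    calc _ ≤ 2 ^ ((2 * ℓ + 8) * (k + c2)) * ((2 : ℝ) ^ (3 * (k + c2)) * 2 ^ (ℓ * (k + c2))) := by
          refine mul_le_mul (hdenle i τ.1 τ.2) (h1.trans ?_) (by positivity) (by positivity)
          exact mul_le_mul hp2 h4 (by positivity) (by positivity)
      _ = _ := by simp only [← pow_add]; congr 1; ring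
  · have h1 := small1 a' p ((G + 1) * k) hpJ N (ξ i) (by rw [← hH]; linarith only [H1, hHN])
      (hξL i) t τ.1 τ.2.le
    rw [coeff_eval_C _ (jet a' p (ξ i) t) (box (Fin n) D)
      (fun α hα => mem_box.2 fun j => (ev_support p _ _ α hα j).le), ← hH] at h1
    have h2 : ∑ γ : box (Fin n) D, (z i τ.1 γ.1 : ℂ) * mon (lam i) γ.1 = den i τ.1 *
        ∑ γ ∈ box (Fin n) D, coeff τ.1 (coeff γ (jet a' p (ξ i) t)) *
          ∏ j, Complex.log (1 + lin a' (ξ i) j) ^ γ j := by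
      rw [Finset.mul_sum, ← Finset.sum_coe_sort (box (Fin n) D)]
      refine Finset.sum_congr rfl fun γ _ => ?_
      rw [hz', hlam, mon]; ring
    rw [h2, norm_mul, Complex.norm_natCast]
    have h4 := hpow N _ hN0.le le_rfl τ.2
    have h5 : 4 * H / N ≤ 1 / 2 := by rw [div_le_iff₀ hN0]; linarith only [hHN]
    calc _ ≤ 2 ^ ((2 * ℓ + 8) * (k + c2)) * ((2 : ℝ) ^ (3 * (k + c2)) * 2 ^ (ℓ * (k + c2)) *
          (1 / 2) ^ ((G + 1) * k)) := by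
          refine mul_le_mul (hdenle i τ.1 τ.2) (h1.trans ?_) (by positivity) (by positivity)
          gcongr
      _ = _ := by simp only [← mul_assoc, ← pow_add]; congr 2; ring

end Pool.Agent.MP_d171e3_nt.H12
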