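import Pool.Agent.MP_d171e3_nt.H12.Core

/-! From the core theorem to counts in a window and up to `X`. -/

namespace Pool.Agent.MP_d171e3_nt.H12

open Finset

theorem window {n D Δ ℓ N L : ℕ} (hnum : Num n D Δ ℓ) (hN : 8 * (n * L + 1) ≤ N)
    (hℓ : N + L ≤ 2 ^ ℓ) (C : Finset ℕ) (hC : ∀ q ∈ C, N ≤ q ∧ q ≤ N + L)
    (hr : LowRank n D Δ C) : (C.card - n) ^ (n + 1) ≤ n * D ^ (n + 1) * (2 * L + 1) ^ n := by
  classical
  by_contra hcon
  rw [not_le] at hcon
  obtain ⟨f, hf⟩ : ∃ f : (Fin (n + 1) ↪ C) → Fin n → ℤ,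
      f = fun e j => ((e j.succ : ℕ) : ℤ) - ((e 0 : ℕ) : ℤ) := ⟨_, rfl⟩
  have hmaps : ∀ e ∈ (univ : Finset (Fin (n + 1) ↪ C)),
      f e ∈ Fintype.piFinset fun _ : Fin n => Icc (-(L : ℤ)) L := by
    intro e _
    rw [Fintype.mem_piFinset]
    intro j
    have h1 := hC _ (e j.succ).2
    have h2 := hC _ (e 0).2
    rw [hf, mem_Icc]
    constructor <;> simp only <;> omega
  have hcard : (Fintype.piFinset fun _ : Fin n => Icc (-(L : ℤ)) L).card * (n * D ^ (n + 1))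
      < (univ : Finset (Fin (n + 1) ↪ C)).card := by
    rw [card_univ, Fintype.card_embedding_eq, Fintype.card_coe, Fintype.card_fin,
      Fintype.card_piFinset_const, Int.card_Icc]
    have h1 : ((L : ℤ) + 1 - -(L : ℤ)).toNat = 2 * L + 1 := by omega
    have h2 := Nat.pow_sub_le_descFactorial C.card (n + 1)
    rw [Nat.add_sub_add_right] at h2
    rw [h1, mul_comm]
    exact hcon.trans_le h2
  obtain ⟨a, ha, hfib⟩ := exists_lt_card_fiber_of_mul_lt_card_of_maps_to hmaps hcard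
  obtain ⟨e0, he0⟩ := card_pos.1 (lt_of_le_of_lt (Nat.zero_le _) hfib)
  have he0' : ∀ j, a j = ((e0 j.succ : ℕ) : ℤ) - ((e0 0 : ℕ) : ℤ) := by
    intro j
    rw [← (mem_filter.1 he0).2, hf]
  have hfa : ∀ e ∈ univ.filter (fun e => f e = a), ∀ j,
      ((e j.succ : ℕ) : ℤ) = ((e 0 : ℕ) : ℤ) + a j := by
    intro e he j
    rw [← (mem_filter.1 he).2, hf]
    simp only
    omega
  refine core (N := N) hnum a ?_ ?_ ?_
    ((univ.filter (fun e => f e = a)).image fun e => ((e 0 : C) : ℕ)) ?_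
    (fun q0 j => ((q0 : ℤ) + a j).toNat) ?_ ?_
  · intro j j' h
    rw [he0', he0'] at h
    have h1 : e0 j.succ = e0 j'.succ := Subtype.ext (by omega)
    exact Fin.succ_injective _ (e0.injective h1)
  · intro j h
    rw [he0'] at h
    have h1 : e0 j.succ = e0 0 := Subtype.ext (by omega)
    exact Fin.succ_ne_zero j (e0.injective h1)
  · have h1 : ∑ j, |a j| ≤ ∑ _j : Fin n, (L : ℤ) :=
      sum_le_sum fun j _ => abs_le.2 (mem_Icc.1 (Fintype.mem_piFinset.1 ha j))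
    rw [sum_const, card_univ, Fintype.card_fin, nsmul_eq_mul] at h1
    have h2 : ((8 * (n * L + 1) : ℕ) : ℤ) ≤ N := by exact_mod_cast hN
    push_cast at h2
    linarith
  · rw [card_image_of_injOn]
    · exact hfib.le
    · intro e he e' he' h
      have h0 : ((e 0 : C) : ℕ) = ((e' 0 : C) : ℕ) := h
      ext j
      refine Fin.cases h0 (fun j => ?_) j
      have h1 := hfa e he j
      have h2 := hfa e' he' j
      omega
  · intro q0 hq0
    obtain ⟨e, he, rfl⟩ := mem_image.1 hq0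
    have h2 := hC _ (e 0).2
    refine ⟨h2.1, h2.2.trans hℓ, fun j => ?_⟩
    have h1 := hC _ (e j.succ).2
    have h3 := hfa e he j
    constructor <;> omega
  · intro q0 hq0
    obtain ⟨e, he, rfl⟩ := mem_image.1 hq0
    have h1 : (fun j => ((((e 0 : C) : ℕ) : ℤ) + a j).toNat) = fun j : Fin n => ((e j.succ : C) : ℕ) := by
      funext j
      have h3 := hfa e he j
      omega
    rw [h1]
    exact hr _ (e 0).2 _ fun j => (e j.succ).2

lemma cnt_pow (n D Z : ℕ) (hZ : 1 ≤ Z) :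
    n * D ^ (n + 1) * (2 * Z ^ (n + 1) + 1) ^ n ≤ (6 * D * Z ^ n) ^ (n + 1) := by
  have h1 : n ≤ 2 ^ (n + 1) := (Nat.lt_two_pow_self.le).trans (Nat.pow_le_pow_right two_pos (Nat.le_succ n))
  have h2 : 1 ≤ Z ^ (n + 1) := Nat.one_le_pow _ _ hZ
  have h3 : (2 * Z ^ (n + 1) + 1) ^ n ≤ (3 * Z ^ (n + 1)) ^ n :=
    Nat.pow_le_pow_left (by omega) n
  have h4 : 3 ^ n ≤ 3 ^ (n + 1) := Nat.pow_le_pow_right (by norm_num) (Nat.le_succ n)
  calc _ ≤ 2 ^ (n + 1) * D ^ (n + 1) * (3 * Z ^ (n + 1)) ^ n := by gcongr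
    _ = 2 ^ (n + 1) * D ^ (n + 1) * (3 ^ n * (Z ^ n) ^ (n + 1)) := by
      rw [mul_pow, ← pow_mul, ← pow_mul, mul_comm (n + 1) n]
    _ ≤ 2 ^ (n + 1) * D ^ (n + 1) * (3 ^ (n + 1) * (Z ^ n) ^ (n + 1)) := by gcongr
    _ = _ := by
      rw [show 6 * D * Z ^ n = 2 * D * (3 * Z ^ n) by ring, mul_pow, mul_pow, mul_pow]

theorem count {n D Δ ℓ Z : ℕ} (hnum : Num n D Δ ℓ) (hZ : 1 ≤ Z) (hℓ : 2 * Z ^ (n + 2) ≤ 2 ^ ℓ)
    (P : Finset ℕ) (hP : ∀ q ∈ P, q ≤ Z ^ (n + 2)) (hr : LowRank n D Δ P) :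
    P.card ≤ 30 * n * D * Z ^ (n + 1) := by
  classical
  have hn := hnum.1
  have hD := hnum.2.1
  obtain ⟨L, hL⟩ : ∃ L, L = Z ^ (n + 1) := ⟨_, rfl⟩
  have hL1 : 1 ≤ L := hL ▸ Nat.one_le_pow _ _ hZ
  have hZL : Z ^ (n + 2) = Z * L := by rw [hL]; ring
  obtain ⟨N, hN⟩ : ∃ N, N = 8 * (n * L + 1) := ⟨_, rfl⟩
  have hsub : P ⊆ range N ∪ (range (Z + 1)).biUnion
      fun j => P.filter fun q => N + j * L ≤ q ∧ q ≤ N + j * L + L := by
    intro q hq
    rcases lt_or_ge q N with h | h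
    · exact mem_union_left _ (mem_range.2 h)
    · refine mem_union_right _ (mem_biUnion.2 ⟨(q - N) / L, mem_range.2 ?_, mem_filter.2 ⟨hq, ?_⟩⟩)
      · have h1 := hP q hq
        rw [hZL] at h1
        exact Nat.lt_succ_of_le (Nat.div_le_of_le_mul (by rw [mul_comm]; omega))
      · have h1 := Nat.div_add_mod (q - N) L
        have h2 := Nat.mod_lt (q - N) hL1
        rw [mul_comm] at h1
        omega
  have hwin : ∀ j ∈ range (Z + 1),
      (P.filter fun q => N + j * L ≤ q ∧ q ≤ N + j * L + L).card ≤ n + 6 * D * Z ^ n := by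
    intro j _
    rcases (P.filter fun q => N + j * L ≤ q ∧ q ≤ N + j * L + L).eq_empty_or_nonempty with h | h
    · rw [h]; simp
    obtain ⟨q, hq⟩ := h
    obtain ⟨hq1, hq2⟩ := mem_filter.1 hq
    have h1 := hP q hq1
    have h2 : L ≤ Z * L := Nat.le_mul_of_pos_left L hZ
    have h3 := window (N := N + j * L) (L := L) hnum (by omega) (by omega)
      (P.filter fun q => N + j * L ≤ q ∧ q ≤ N + j * L + L) (fun q hq => (mem_filter.1 hq).2)
      (fun q0 h0 q hq => hr q0 (mem_filter.1 h0).1 q fun j => (mem_filter.1 (hq j)).1)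
    have h4 := cnt_pow n D Z hZ
    rw [← hL] at h4
    have h5 := (Nat.pow_le_pow_iff_left (Nat.succ_ne_zero n)).1 (h3.trans h4)
    omega
  have h1 := card_biUnion_le_card_mul _ _ _ hwin
  have h2 := (card_le_card hsub).trans (card_union_le _ _)
  rw [card_range] at h1 h2
  have h3 : Z ≤ L := by
    rw [hL]; exact Nat.le_self_pow (Nat.succ_ne_zero n) Z
  have h4 : Z * Z ^ n = L := by rw [hL]; ring
  have h5 : (Z + 1) * (n + 6 * D * Z ^ n) ≤ 2 * (n * L) + 12 * (D * L) := by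
    calc _ ≤ (2 * Z) * (n + 6 * D * Z ^ n) := Nat.mul_le_mul_right _ (by omega)
      _ = 2 * (n * Z) + 12 * (D * (Z * Z ^ n)) := by ring
      _ ≤ _ := by rw [h4]; gcongr
  have h6 : n * L ≤ n * D * L := by
    rw [mul_assoc]; exact Nat.mul_le_mul_left _ (Nat.le_mul_of_pos_left L hD)
  have h7 : D * L ≤ n * D * L := by
    rw [mul_assoc]; exact Nat.le_mul_of_pos_left _ hn
  have h8 : 1 ≤ n * L := Nat.mul_pos hn hL1
  rw [← hL, show 30 * n * D * L = 30 * (n * D * L) by ring]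
  omega

end Pool.Agent.MP_d171e3_nt.H12
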