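import Pool.Agent.MP_d171e3_nt.Mg.H31_Main

/-! The rank hypothesis for sets of integers. -/

namespace Pool.Agent.MP_d171e3_nt.H12

open Finset
open Pool.Agent.MP_d171e3_nt.H48 (lg box mon)

/-- the box monomials in the differences of logarithms span a space of dimension at most `Δ` -/
def LowAt {n : ℕ} (D Δ : ℕ) (q0 : ℕ) (q : Fin n → ℕ) : Prop :=
  ∃ S : Finset ℂ, S.card ≤ Δ ∧ ∀ γ ∈ box (Fin n) D,
    mon (fun j => lg (q j) - lg q0) γ ∈ Submodule.span ℚ (S : Set ℂ)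

/-- `LowAt` for all tuples from `P` -/
def LowRank (n D Δ : ℕ) (P : Finset ℕ) : Prop :=
  ∀ q0 ∈ P, ∀ q : Fin n → ℕ, (∀ j, q j ∈ P) → LowAt D Δ q0 q

/-- the numerical conditions of the core theorem -/
def Num (n D Δ ℓ : ℕ) : Prop :=
  1 ≤ n ∧ 1 ≤ D ∧ 2 * ((Δ + 1) * (3 * ℓ + 11) + 1) ^ 2 * (8 * n * D + ℓ) ≤ D ^ n

end Pool.Agent.MP_d171e3_nt.H12
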