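import Pool.Agent.MP_d171e3_nt.H12.Count

/-! Few integers have a logarithm of small degree over `r` given numbers, uniformly in the degree. -/

namespace Pool.Agent.MP_d171e3_nt.H12

open Finset
open Pool.Agent.MP_d171e3_nt.H48 (Grow Dep lg box mem_box mon mon_mem_pow pow_mono_exp grow_range
  eval_mem_pow rat_mem_pow_zero totalDegree_map_le)

lemma fib_low {W : Submodule ℚ ℂ} {r d : ℕ} (hW : Grow W 1 r) (hd : 1 ≤ d) (ω : ℂ) (n D : ℕ)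
    (P : Finset ℕ) (hP : ∀ q ∈ P, Dep d W (ω + lg q)) :
    LowRank n D ((d * (d + 1) ^ r) ^ (n + 1) * (n * D + 1) ^ r) P := by
  classical
  intro q0 h0 q hq
  have hU : ∀ x ∈ insert q0 (univ.image q), Dep d W (ω + lg x) := by
    intro x hx
    rcases mem_insert.1 hx with rfl | hx
    · exact hP _ h0
    · obtain ⟨j, -, rfl⟩ := mem_image.1 hx
      exact hP _ (hq j)
  have hc : (insert q0 (univ.image q)).card ≤ n + 1 :=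
    (card_insert_le _ _).trans (Nat.succ_le_succ (card_image_le.trans (by simp)))
  have h1 := (H31.grow_dep_finset hW (fun x => ω + lg x) _ hU).mono
    (c' := (d * (d + 1) ^ r) ^ (n + 1))
    (by rw [one_mul]; exact Nat.pow_le_pow_right (by positivity) hc)
  obtain ⟨S, hS0, hS1⟩ := h1.2 (n * D)
  refine ⟨S, hS0, fun γ hγ => hS1 (pow_mono_exp h1.1 ?_ (mon_mem_pow (fun j => ?_) γ))⟩
  · refine (Finset.sum_le_card_nsmul _ _ D fun j _ => mem_box.1 hγ j).trans ?_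
    simp
  · rw [show lg (q j) - lg q0 = (ω + lg (q j)) - (ω + lg q0) by ring]
    exact sub_mem (Submodule.mem_sup_right (Submodule.subset_span
      ⟨q j, mem_coe.2 (mem_insert_of_mem (mem_image_of_mem _ (mem_univ j))), rfl⟩))
      (Submodule.mem_sup_right (Submodule.subset_span ⟨q0, mem_coe.2 (mem_insert_self _ _), rfl⟩))

lemma fib_num {r c ℓ n D : ℕ} (hc : 1 ≤ c) (hℓ : 1 ≤ ℓ) (hn : n = 2 * r + 2)
    (hD : D = 16200 * n * (2 * n) ^ (2 * r) * c ^ 2 * ℓ ^ 3) :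
    Num n D (c * (n * D + 1) ^ r) ℓ := by
  have hn1 : 1 ≤ n := by omega
  have hD1 : 1 ≤ D := by rw [hD]; exact Nat.succ_le_of_lt (by positivity)
  refine ⟨hn1, hD1, ?_⟩
  have hnD : 1 ≤ n * D := Nat.mul_pos hn1 hD1
  have h1 : (n * D + 1) ^ r ≤ (2 * n * D) ^ r := Nat.pow_le_pow_left (by nlinarith) r
  obtain ⟨y, hy⟩ : ∃ y, y = c * (2 * n * D) ^ r := ⟨_, rfl⟩
  have hy1 : 1 ≤ y := by rw [hy]; exact Nat.succ_le_of_lt (by positivity)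
  have h2 : c * (n * D + 1) ^ r ≤ y := hy ▸ Nat.mul_le_mul_left c h1
  have h3 : (c * (n * D + 1) ^ r + 1) * (3 * ℓ + 11) + 1 ≤ 30 * y * ℓ := by
    have := Nat.mul_le_mul (show c * (n * D + 1) ^ r + 1 ≤ 2 * y by omega)
      (show 3 * ℓ + 11 ≤ 14 * ℓ by omega)
    have := Nat.mul_le_mul hy1 hℓ
    nlinarith
  have h4 : 8 * n * D + ℓ ≤ 9 * (n * D) * ℓ := by nlinarith [Nat.mul_le_mul hnD hℓ]
  calc _ ≤ 2 * (30 * y * ℓ) ^ 2 * (9 * (n * D) * ℓ) := by gcongr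
    _ = (16200 * n * (2 * n) ^ (2 * r) * c ^ 2 * ℓ ^ 3) * D ^ (2 * r + 1) := by rw [hy]; ring
    _ = _ := by rw [← hD]; conv_rhs => rw [hn]
                ring

open Classical in
lemma fib_count (r : ℕ) : ∃ C : ℕ, ∀ (d X : ℕ) (W : Submodule ℚ ℂ) (ω : ℂ), Grow W 1 r → 1 ≤ d →
    2 ≤ X → (((Icc 1 X).filter fun q => Dep d W (ω + lg q)).card : ℝ) ≤
      C * (d : ℝ) ^ C * Real.log X ^ 3 * (X : ℝ) ^ (1 - 1 / (2 * (r : ℝ) + 4)) := by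
  obtain ⟨n, hn⟩ : ∃ n, n = 2 * r + 2 := ⟨_, rfl⟩
  obtain ⟨c1, hc1⟩ : ∃ c1, c1 = 16200 * n * (2 * n) ^ (2 * r) := ⟨_, rfl⟩
  obtain ⟨C1, hC1⟩ : ∃ C1, C1 = 30 * n * c1 * (2 ^ (r * (n + 1))) ^ 2 * (2 * (n + 5)) ^ 3 *
    2 ^ (n + 1) := ⟨_, rfl⟩
  obtain ⟨C2, hC2⟩ : ∃ C2, C2 = (r + 1) * (n + 1) * 2 := ⟨_, rfl⟩
  refine ⟨C1 + C2, fun d X W ω hW hd hX => ?_⟩
  obtain ⟨c, hc⟩ : ∃ c, c = (d * (d + 1) ^ r) ^ (n + 1) := ⟨_, rfl⟩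
  obtain ⟨ℓ, hℓ⟩ : ∃ ℓ, ℓ = n + 4 + Nat.log 2 X := ⟨_, rfl⟩
  obtain ⟨D, hD⟩ : ∃ D, D = c1 * c ^ 2 * ℓ ^ 3 := ⟨_, rfl⟩
  have hX2 : (2 : ℝ) ≤ X := by exact_mod_cast hX
  have hX0 : (0 : ℝ) < X := by linarith
  have hd1 : (1 : ℝ) ≤ d := by exact_mod_cast hd
  obtain ⟨x, hx⟩ : ∃ x : ℝ, x = (X : ℝ) ^ (1 / ((n : ℝ) + 2)) := ⟨_, rfl⟩
  have hx1 : 1 ≤ x := hx ▸ Real.one_le_rpow (by linarith) (by positivity)
  have hx2 : x ^ (n + 2) = X := by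
    rw [hx, ← Real.rpow_natCast, ← Real.rpow_mul hX0.le]
    push_cast
    rw [one_div_mul_cancel (by positivity), Real.rpow_one]
  have hx3 : x ^ (n + 1) = (X : ℝ) ^ (1 - 1 / (2 * (r : ℝ) + 4)) := by
    rw [hx, ← Real.rpow_natCast, ← Real.rpow_mul hX0.le, hn]
    congr 1
    push_cast
    field_simp
    ring
  have hZ1 : x ≤ ⌈x⌉₊ := Nat.le_ceil x
  have hZ2 : (⌈x⌉₊ : ℝ) ≤ 2 * x := by linarith [Nat.ceil_lt_add_one (show 0 ≤ x by linarith)]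
  have hZ3 : X ≤ ⌈x⌉₊ ^ (n + 2) := by
    have : (X : ℝ) ≤ (⌈x⌉₊ : ℝ) ^ (n + 2) := hx2 ▸ pow_le_pow_left₀ (by linarith) hZ1 _
    exact_mod_cast this
  have hZ4 : 2 * ⌈x⌉₊ ^ (n + 2) ≤ 2 ^ ℓ := by
    have h1 : (⌈x⌉₊ : ℝ) ^ (n + 2) ≤ 2 ^ (n + 2) * X := by
      rw [← hx2, ← mul_pow]; exact pow_le_pow_left₀ (by positivity) hZ2 _
    have h2 : ⌈x⌉₊ ^ (n + 2) ≤ 2 ^ (n + 2) * X := by exact_mod_cast h1
    have h3 := (Nat.lt_pow_succ_log_self one_lt_two X).le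
    calc _ ≤ 2 * (2 ^ (n + 2) * 2 ^ (Nat.log 2 X).succ) := by gcongr; exact h2.trans (by gcongr)
      _ = _ := by rw [hℓ, Nat.succ_eq_add_one]; ring
  have h1 := count (fib_num (r := r) (c := c) (ℓ := ℓ) (D := D)
      (by rw [hc]; exact Nat.succ_le_of_lt (by positivity)) (by omega) hn (by rw [hD, hc1]))
    (Nat.ceil_pos.2 (by linarith : 0 < x)) hZ4 ((Icc 1 X).filter fun q => Dep d W (ω + lg q))
    (fun q hq => (mem_Icc.1 (mem_filter.1 hq).1).2.trans hZ3)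
    (hc ▸ fib_low hW hd ω n D _ fun q hq => (mem_filter.1 hq).2)
  have hlog : 1 / 2 ≤ Real.log X := by
    have := Real.log_le_log two_pos hX2
    have := Real.log_two_gt_d9
    linarith
  have h2 : (ℓ : ℝ) ≤ 2 * (n + 5) * Real.log X := by
    have h3 : ((2 ^ Nat.log 2 X : ℕ) : ℝ) ≤ X := by
      exact_mod_cast Nat.pow_log_le_self 2 (by omega : X ≠ 0)
    have h4 := Real.log_le_log (by positivity) h3
    rw [Nat.cast_pow, Real.log_pow] at h4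
    have h5 := Real.log_two_gt_d9
    have h6 : (0 : ℝ) ≤ Nat.log 2 X := Nat.cast_nonneg _
    have h7 : (0 : ℝ) ≤ n := Nat.cast_nonneg _
    rw [hℓ]
    push_cast at h4 ⊢
    nlinarith
  have h3 : c ≤ 2 ^ (r * (n + 1)) * d ^ ((r + 1) * (n + 1)) := by
    calc c ≤ (d * (2 * d) ^ r) ^ (n + 1) := by rw [hc]; gcongr; omega
      _ = _ := by simp only [mul_pow, ← pow_mul]; ring
  have h4 : (c : ℝ) ≤ 2 ^ (r * (n + 1)) * (d : ℝ) ^ ((r + 1) * (n + 1)) := by exact_mod_cast h3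
  have h5 : (d : ℝ) ^ C2 ≤ (d : ℝ) ^ (C1 + C2) := pow_le_pow_right₀ hd1 (by omega)
  have h6 : (C1 : ℝ) ≤ (C1 + C2 : ℕ) := by exact_mod_cast Nat.le_add_right _ _
  calc _ ≤ ((30 * n * D * ⌈x⌉₊ ^ (n + 1) : ℕ) : ℝ) := Nat.cast_le.2 h1
    _ = 30 * n * (c1 * (c : ℝ) ^ 2 * (ℓ : ℝ) ^ 3) * (⌈x⌉₊ : ℝ) ^ (n + 1) := by
        rw [hD]; push_cast; ring
    _ ≤ 30 * n * (c1 * (2 ^ (r * (n + 1)) * (d : ℝ) ^ ((r + 1) * (n + 1))) ^ 2 *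
          (2 * (n + 5) * Real.log X) ^ 3) * (2 * x) ^ (n + 1) := by gcongr
    _ = C1 * (d : ℝ) ^ C2 * Real.log X ^ 3 * x ^ (n + 1) := by
        rw [hC1, hC2, pow_mul (d : ℝ) _ 2]; push_cast; ring
    _ ≤ _ := by rw [hx3]; gcongr

theorem uniform_fibres (r : ℕ) : ∃ C : ℕ, ∀ (d X : ℕ) (θ : Fin r → ℂ) (ω : ℂ), 1 ≤ d → 2 ≤ X →
    (({q : ℕ | 1 ≤ q ∧ q ≤ X ∧ ∃ G : Polynomial ℂ, G ≠ 0 ∧ G.natDegree ≤ d ∧
        (∀ j, ∃ P : MvPolynomial (Fin r) ℚ, P.totalDegree ≤ d ∧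
          MvPolynomial.aeval θ P = G.coeff j) ∧
        G.eval (ω + ((Real.log q : ℝ) : ℂ)) = 0}.ncard : ℕ) : ℝ) ≤
      C * (d : ℝ) ^ C * Real.log X ^ 3 * (X : ℝ) ^ (1 - 1 / (2 * (r : ℝ) + 4)) := by
  classical
  obtain ⟨C, hC⟩ := fib_count r
  refine ⟨C, fun d X θ ω hd hX => le_trans (Nat.cast_le.2 ?_) (hC d X _ ω (grow_range θ) hd hX)⟩
  rw [← Set.ncard_coe_finset]
  refine Set.ncard_le_ncard ?_ (Finset.finite_toSet _)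
  rintro q ⟨hq, hqX, G, h0, hGd, hc, hG⟩
  refine mem_coe.2 (mem_filter.2 ⟨mem_Icc.2 ⟨hq, hqX⟩, G, h0, hGd, fun j => ?_, hG⟩)
  obtain ⟨P, hP, hPc⟩ := hc j
  rw [← hPc, MvPolynomial.aeval_def, MvPolynomial.eval₂_eq_eval_map]
  have := eval_mem_pow (grow_range θ).1 (y := θ)
    (fun i => Submodule.mem_sup_right (Submodule.subset_span ⟨i, rfl⟩))
    (H := MvPolynomial.map (algebraMap ℚ ℂ) P) (a := 0) (b := d)
    (fun β => by rw [MvPolynomial.coeff_map]; exact rat_mem_pow_zero _ _)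
    ((totalDegree_map_le _ _).trans hP)
  rwa [zero_add] at this

end Pool.Agent.MP_d171e3_nt.H12
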