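import Pool.Agent.MP_d171e3_nt.H12.Count

/-! Lower bound for the Hilbert function of the logarithms of the primes up to `y`. -/

namespace Pool.Agent.MP_d171e3_nt.H12

open Finset
open Pool.Agent.MP_d171e3_nt.H48 (lg box mem_box mon le_pi_mul_log)

lemma rk_span (V : Submodule ℚ ℝ) [Module.Finite ℚ V] :
    ∃ S : Finset ℂ, S.card ≤ Module.finrank ℚ V ∧
      ∀ x ∈ V, (x : ℂ) ∈ Submodule.span ℚ (S : Set ℂ) := by
  classical
  let b := Module.finBasis ℚ V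
  refine ⟨univ.image fun i => (((b i : V) : ℝ) : ℂ), card_image_le.trans (by simp), fun x hx => ?_⟩
  have h1 : x = ∑ i, b.repr ⟨x, hx⟩ i • ((b i : V) : ℝ) := by
    have h := congrArg (fun z : V => (z : ℝ)) (b.sum_repr ⟨x, hx⟩)
    simp only [Submodule.coe_sum, Submodule.coe_smul] at h
    exact h.symm
  rw [h1, Complex.ofReal_sum]
  refine Submodule.sum_mem _ fun i _ => ?_
  have h2 : (((b.repr ⟨x, hx⟩ i • ((b i : V) : ℝ) : ℝ)) : ℂ)
      = b.repr ⟨x, hx⟩ i • (((b i : V) : ℝ) : ℂ) := by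
    simp [Rat.smul_def]
  rw [h2]
  exact Submodule.smul_mem _ _ (Submodule.subset_span (by simp))

lemma rk_log (y : ℕ) (s : Finset ℕ) (hs : ∀ p ∈ s, p.Prime ∧ p ≤ y) :
    ∃ F : MvPolynomial {p : ℕ // p.Prime ∧ p ≤ y} ℚ, F.totalDegree ≤ 1 ∧
      MvPolynomial.aeval (fun p : {p : ℕ // p.Prime ∧ p ≤ y} => Real.log (p.1 : ℕ)) F
        = Real.log ((∏ p ∈ s, p : ℕ) : ℝ) := by
  classical
  induction s using Finset.induction_on with
  | empty => exact ⟨0, by simp, by simp⟩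
  | insert p s hp ih =>
    obtain ⟨F, hF1, hF2⟩ := ih fun q hq => hs q (mem_insert_of_mem hq)
    have h1 := hs p (mem_insert_self _ _)
    refine ⟨MvPolynomial.X ⟨p, h1⟩ + F, (MvPolynomial.totalDegree_add _ _).trans
      (max_le (MvPolynomial.totalDegree_X _).le hF1), ?_⟩
    have h2 : ((∏ q ∈ s, q : ℕ) : ℝ) ≠ 0 :=
      Nat.cast_ne_zero.2 (prod_ne_zero_iff.2 fun q hq => (hs q (mem_insert_of_mem hq)).1.ne_zero)
    rw [map_add, MvPolynomial.aeval_X, hF2, prod_insert hp, Nat.cast_mul,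
      Real.log_mul (Nat.cast_ne_zero.2 h1.1.ne_zero) h2]

lemma rk_low {y y0 m n D Δ u : ℕ} (hy : y0 ≤ y) (hm : n * D ≤ m)
    (hΔ : Module.finrank ℚ ((MvPolynomial.restrictTotalDegree {p : ℕ // p.Prime ∧ p ≤ y} ℚ m).map
      (MvPolynomial.aeval fun p : {p : ℕ // p.Prime ∧ p ≤ y} => Real.log (p.1 : ℕ)).toLinearMap)
        ≤ Δ) :
    LowRank n D Δ ((powersetCard u (Nat.primesLE y0)).image fun s => ∏ p ∈ s, p) := by
  classical
  have : Finite {p : ℕ // p.Prime ∧ p ≤ y} :=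
    ((Set.finite_le_nat y).subset fun p (hp : p.Prime ∧ p ≤ y) => hp.2).to_subtype
  obtain ⟨S, hS1, hS2⟩ := rk_span
    ((MvPolynomial.restrictTotalDegree {p : ℕ // p.Prime ∧ p ≤ y} ℚ m).map
      (MvPolynomial.aeval fun p : {p : ℕ // p.Prime ∧ p ≤ y} => Real.log (p.1 : ℕ)).toLinearMap)
  have key : ∀ q ∈ (powersetCard u (Nat.primesLE y0)).image fun s => ∏ p ∈ s, p,
      ∃ F : MvPolynomial {p : ℕ // p.Prime ∧ p ≤ y} ℚ, F.totalDegree ≤ 1 ∧
        MvPolynomial.aeval (fun p : {p : ℕ // p.Prime ∧ p ≤ y} => Real.log (p.1 : ℕ)) F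
          = Real.log (q : ℝ) := by
    intro q hq
    obtain ⟨s, hs, rfl⟩ := mem_image.1 hq
    refine rk_log y s fun p hp => ?_
    have h := Nat.mem_primesLE.1 ((mem_powersetCard.1 hs).1 hp)
    exact ⟨h.2, h.1.trans hy⟩
  intro q0 h0 q hq
  obtain ⟨F0, hF0, hF0'⟩ := key q0 h0
  choose F hF hF' using fun j => key (q j) (hq j)
  refine ⟨S, hS1.trans hΔ, fun γ hγ => ?_⟩
  have h1 : mon (fun j => lg (q j) - lg q0) γ
      = ((MvPolynomial.aeval (fun p : {p : ℕ // p.Prime ∧ p ≤ y} => Real.log (p.1 : ℕ))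
        (∏ j, (F j - F0) ^ γ j) : ℝ) : ℂ) := by
    simp only [mon, lg, map_prod, map_pow, map_sub, hF0', hF']
    push_cast
    rfl
  rw [h1]
  refine hS2 _ (Submodule.mem_map.2 ⟨∏ j, (F j - F0) ^ γ j, ?_, rfl⟩)
  rw [MvPolynomial.mem_restrictTotalDegree]
  refine (MvPolynomial.totalDegree_finsetProd _ _).trans (le_trans ?_ hm)
  have h2 : ∑ j, ((F j - F0) ^ γ j).totalDegree ≤ ∑ _j : Fin n, D := by
    refine sum_le_sum fun j _ => (MvPolynomial.totalDegree_pow _ _).trans ?_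
    have h3 : (F j - F0).totalDegree ≤ 1 :=
      (MvPolynomial.totalDegree_sub _ _).trans (max_le (hF j) hF0)
    calc _ ≤ D * 1 := Nat.mul_le_mul (mem_box.1 hγ j) h3
      _ = D := mul_one D
  simpa using h2

lemma rk_card (y0 u w : ℕ) (hu : 1 ≤ u) (hw : 1 ≤ w) (hg : 2 * u * w ≤ Nat.primeCounting y0) :
    w ^ u ≤ ((powersetCard u (Nat.primesLE y0)).image fun s => ∏ p ∈ s, p).card := by
  classical
  rw [card_image_of_injOn, card_powersetCard, Nat.primesLE_card_eq_primeCounting]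
  · obtain ⟨g, hg'⟩ : ∃ g, g = Nat.primeCounting y0 := ⟨_, rfl⟩
    rw [← hg'] at hg ⊢
    have h1 := Nat.pow_sub_le_descFactorial g u
    rw [Nat.descFactorial_eq_factorial_mul_choose] at h1
    have h2 : u ≤ u * w := Nat.le_mul_of_pos_right u hw
    have h3 : u * w ≤ g + 1 - u := by
      rw [mul_assoc] at hg
      omega
    have h4 : u ^ u * w ^ u ≤ u ^ u * g.choose u := by
      rw [← mul_pow]
      exact (Nat.pow_le_pow_left h3 u).trans
        (h1.trans (Nat.mul_le_mul_right _ (Nat.factorial_le_pow u)))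
    exact Nat.le_of_mul_le_mul_left h4 (by positivity)
  · intro s hs t ht h
    have hs' : ∀ p ∈ s, p.Prime := fun p hp =>
      (Nat.mem_primesLE.1 ((mem_powersetCard.1 hs).1 hp)).2
    have ht' : ∀ p ∈ t, p.Prime := fun p hp =>
      (Nat.mem_primesLE.1 ((mem_powersetCard.1 ht).1 hp)).2
    rw [← Nat.primeFactors_prod hs', ← Nat.primeFactors_prod ht']
    exact congrArg Nat.primeFactors h

lemma rk_exp (c : ℕ) (hc : 200 ≤ c) : 576 * (2 * c + 1) ^ 8 ≤ 2 ^ c := by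
  induction c, hc using Nat.le_induction with
  | base => norm_num
  | succ c hc ih =>
    have h1 : (200 * (2 * (c + 1) + 1)) ^ 8 ≤ (201 * (2 * c + 1)) ^ 8 :=
      Nat.pow_le_pow_left (by omega) 8
    rw [mul_pow, mul_pow] at h1
    rw [pow_succ 2 c]
    generalize (2 * (c + 1) + 1) ^ 8 = A at *
    generalize (2 * c + 1) ^ 8 = B at *
    norm_num at h1
    omega

/-- the size condition -/
lemma rk_size {k n b m : ℕ} (hk : 1 ≤ k) (hn : n = 2 * k + 2) (hb : 400 * k ^ 2 ≤ b)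
    (hm : 2 ^ b ≤ 2 * m) : 288 * b ^ 8 * (2 * n) ^ n ≤ m := by
  have hk2 : 1 ≤ k ^ 2 := Nat.one_le_pow _ _ hk
  have h1 := rk_exp (b / 2) (by omega)
  have h2 : b ^ 8 ≤ (2 * (b / 2) + 1) ^ 8 := Nat.pow_le_pow_left (by omega) 8
  have h3 : 2 * n ≤ 2 ^ n := by
    have h := @Nat.lt_two_pow_self (n - 1)
    have h' : 2 ^ n = 2 * 2 ^ (n - 1) := by
      rw [← pow_succ']; congr 1; omega
    omega
  have h4 : n * n ≤ b - b / 2 := by
    have h : n * n ≤ (4 * k) * (4 * k) := Nat.mul_le_mul (by omega) (by omega)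
    have h' : (4 * k) * (4 * k) = 16 * k ^ 2 := by ring
    omega
  have h5 : (2 * n) ^ n ≤ 2 ^ (b - b / 2) := by
    refine (Nat.pow_le_pow_left h3 n).trans ?_
    rw [← pow_mul]
    exact Nat.pow_le_pow_right two_pos h4
  have h6 : 576 * b ^ 8 * (2 * n) ^ n ≤ 2 ^ b := by
    calc _ ≤ 2 ^ (b / 2) * 2 ^ (b - b / 2) := Nat.mul_le_mul (by omega) h5
      _ = _ := by rw [← pow_add]; congr 1; omega
  rw [mul_assoc] at h6 ⊢
  omega

lemma rk_num {k n b m Δ : ℕ} (hk : 1 ≤ k) (hn : n = 2 * k + 2) (hb : 400 * k ^ 2 ≤ b)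
    (hm : 2 ^ b ≤ 2 * m) (hΔ : Δ + 1 = m ^ k) : Num n (m / n) Δ (b ^ 4) := by
  have h1 := rk_size hk hn hb hm
  have hk2 : k ≤ k ^ 2 := Nat.le_self_pow two_ne_zero k
  have hn0 : 0 < n := by omega
  have hb0 : 0 < b := by omega
  have h2 : b ^ 8 ≤ m := by
    have h : 1 ≤ (2 * n) ^ n := Nat.one_le_pow _ _ (by omega)
    have h' : 288 * b ^ 8 * 1 ≤ 288 * b ^ 8 * (2 * n) ^ n := Nat.mul_le_mul_left _ h
    omega
  have h3 : b ^ 4 ≤ b ^ 8 := Nat.pow_le_pow_right hb0 (by norm_num)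
  have h4 : b ≤ b ^ 4 := Nat.le_self_pow (by norm_num) b
  have hD : 1 ≤ m / n := (Nat.le_div_iff_mul_le hn0).2 (by omega)
  refine ⟨hn0, hD, ?_⟩
  obtain ⟨D, hD'⟩ : ∃ D, D = m / n := ⟨_, rfl⟩
  have h5 : n * D ≤ m := hD' ▸ Nat.mul_div_le m n
  have h6 : m ≤ 2 * n * D := by
    have h := Nat.lt_mul_div_succ m hn0
    rw [← hD'] at h hD
    have h' : n * 1 ≤ n * D := Nat.mul_le_mul_left n hD
    rw [mul_add] at h
    rw [mul_assoc]
    omega
  rw [← hD', hΔ]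
  have h7 : m ^ k * (3 * b ^ 4 + 11) + 1 ≤ m ^ k * (4 * b ^ 4) := by
    have h : m ^ k * (3 * b ^ 4 + 12) ≤ m ^ k * (4 * b ^ 4) := Nat.mul_le_mul_left _ (by omega)
    have h' : m ^ k * (3 * b ^ 4 + 12) = m ^ k * (3 * b ^ 4 + 11) + m ^ k := by ring
    omega
  have h8 : 8 * n * D + b ^ 4 ≤ 9 * m := by
    rw [mul_assoc]; omega
  have h9 : (2 * n) ^ n * (2 * (m ^ k * (3 * b ^ 4 + 11) + 1) ^ 2 * (8 * n * D + b ^ 4))
      ≤ (2 * n) ^ n * D ^ n := by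
    calc _ ≤ (2 * n) ^ n * (2 * (m ^ k * (4 * b ^ 4)) ^ 2 * (9 * m)) := by gcongr
      _ = (288 * b ^ 8 * (2 * n) ^ n) * m ^ (2 * k + 1) := by ring
      _ ≤ m * m ^ (2 * k + 1) := Nat.mul_le_mul_right _ h1
      _ = m ^ n := by rw [hn]; ring
      _ ≤ (2 * n * D) ^ n := Nat.pow_le_pow_left h6 n
      _ = _ := mul_pow _ _ _
  exact Nat.le_of_mul_le_mul_left h9 (by positivity)

lemma rk_pi {k n b : ℕ} (hk : 1 ≤ k) (hn : n = 2 * k + 2) (hb : 400 * k ^ 2 ≤ b) :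
    b ^ (4 * n + 7) ≤ Nat.primeCounting (b ^ (4 * n + 9)) := by
  have hk2 : k ≤ k ^ 2 := Nat.le_self_pow two_ne_zero k
  have h1 : 2 ≤ b ^ (4 * n + 9) := le_trans (by omega) (Nat.le_self_pow (by omega) b)
  have h2 := le_pi_mul_log h1
  have hb0 : (0 : ℝ) < b := by exact_mod_cast (by omega : 0 < b)
  have h3 : Real.log b ≤ b := (Real.log_le_sub_one_of_pos hb0).trans (by linarith)
  have h4 : 16 * ((4 * n + 9 : ℕ) : ℝ) ≤ b := by exact_mod_cast (by omega : 16 * (4 * n + 9) ≤ b)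
  have h5 : 0 ≤ Real.log b := Real.log_natCast_nonneg b
  rw [Nat.cast_pow, Real.log_pow, ← mul_assoc] at h2
  have h6 : (b : ℝ) ^ 2 * (b : ℝ) ^ (4 * n + 7)
      ≤ (b : ℝ) ^ 2 * Nat.primeCounting (b ^ (4 * n + 9)) := by
    calc _ = (b : ℝ) ^ (4 * n + 9) := by ring
      _ ≤ _ := h2
      _ ≤ b * b * (Nat.primeCounting (b ^ (4 * n + 9)) : ℝ) := by gcongr
      _ = _ := by ring
  exact_mod_cast le_of_mul_le_mul_left h6 (by positivity)

/-- the integer form -/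
lemma rk_nat {k b y m : ℕ} (hk : 1 ≤ k) (hb : 400 * k ^ 2 ≤ b) (hm : 2 ^ b ≤ 2 * m)
    (hm' : m < 2 ^ b) (hy : b ^ (25 * k) ≤ y) :
    m ^ k ≤ Module.finrank ℚ ((MvPolynomial.restrictTotalDegree {p : ℕ // p.Prime ∧ p ≤ y} ℚ m).map
      (MvPolynomial.aeval fun p : {p : ℕ // p.Prime ∧ p ≤ y} => Real.log (p.1 : ℕ)).toLinearMap) := by
  classical
  by_contra hcon
  rw [not_le] at hcon
  obtain ⟨n, hn⟩ : ∃ n, n = 2 * k + 2 := ⟨_, rfl⟩
  have hk2 : k ≤ k ^ 2 := Nat.le_self_pow two_ne_zero k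
  have hb0 : 0 < b := by omega
  have hnum := rk_num (Δ := m ^ k - 1) hk hn hb hm (by omega)
  have hnD : n * (m / n) ≤ m := Nat.mul_div_le m n
  have hy0 : b ^ (4 * n + 9) ≤ y := (Nat.pow_le_pow_right hb0 (by omega)).trans hy
  have hlow := rk_low (u := (b + 5) * (n + 2)) (Δ := m ^ k - 1) hy0 hnD (by omega)
  have hu : 2 * ((b + 5) * (n + 2)) ≤ b ^ 2 := by
    calc _ ≤ 2 * ((2 * b) * (6 * k)) := by gcongr <;> omega
      _ = b * (24 * k) := by ring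
      _ ≤ b * b := Nat.mul_le_mul_left _ (by omega)
      _ = _ := by ring
  have hcard := rk_card (b ^ (4 * n + 9)) ((b + 5) * (n + 2)) (b ^ (4 * n + 5))
    (Nat.mul_pos (by omega) (by omega)) (Nat.one_le_pow _ _ hb0)
    (le_trans ((Nat.mul_le_mul_right _ hu).trans (le_of_eq (by ring))) (rk_pi hk hn hb))
  have hℓ : 2 * ((b ^ (4 * n + 9)) ^ (b + 5)) ^ (n + 2) ≤ 2 ^ b ^ 4 := by
    have h1 : (4 * n + 9) * ((b + 5) * (n + 2)) ≤ b ^ 2 := by
      calc _ ≤ (25 * k) * ((2 * b) * (6 * k)) := by gcongr <;> omega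
        _ = b * (300 * k ^ 2) := by ring
        _ ≤ b * b := Nat.mul_le_mul_left _ (by omega)
        _ = _ := by ring
    have h2 : b * b ^ 2 + 1 ≤ b ^ 4 := by
      have h : 2 * b ^ 3 ≤ b * b ^ 3 := Nat.mul_le_mul_right _ (by omega)
      have h' : 1 ≤ b ^ 3 := Nat.one_le_pow _ _ hb0
      rw [show b * b ^ 2 = b ^ 3 by ring, show b ^ 4 = b * b ^ 3 by ring]
      omega
    calc _ = 2 * b ^ ((4 * n + 9) * ((b + 5) * (n + 2))) := by rw [← pow_mul, ← pow_mul]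
      _ ≤ 2 * b ^ b ^ 2 := Nat.mul_le_mul_left _ (Nat.pow_le_pow_right hb0 h1)
      _ ≤ 2 * (2 ^ b) ^ b ^ 2 :=
        Nat.mul_le_mul_left _ (Nat.pow_le_pow_left Nat.lt_two_pow_self.le _)
      _ = 2 ^ (b * b ^ 2 + 1) := by rw [← pow_mul, pow_succ' 2]
      _ ≤ _ := Nat.pow_le_pow_right two_pos h2
  have hcount := count (Z := (b ^ (4 * n + 9)) ^ (b + 5)) hnum
    (Nat.one_le_pow _ _ (Nat.pow_pos hb0)) hℓ _ (fun q hq => by
      obtain ⟨s, hs, rfl⟩ := mem_image.1 hq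
      obtain ⟨hs1, hs2⟩ := mem_powersetCard.1 hs
      rw [← pow_mul, ← hs2]
      exact prod_le_pow_card s _ _ fun p hp => (Nat.mem_primesLE.1 (hs1 hp)).1) hlow
  have h2 : (b ^ (4 * n + 5)) ^ ((b + 5) * (n + 2))
      = b ^ (b + 5) * ((b ^ (4 * n + 9)) ^ (b + 5)) ^ (n + 1) := by
    simp only [← pow_mul, ← pow_add]
    congr 1
    ring
  have h3 := hcard.trans hcount
  rw [h2] at h3
  have h4 := Nat.le_of_mul_le_mul_right h3 (by positivity)
  have h5 : 2 ^ (b + 5) ≤ b ^ (b + 5) := Nat.pow_le_pow_left (by omega) _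
  rw [pow_add 2] at h5
  rw [mul_assoc] at h4
  omega

/-- Uniform lower bound: for `1 ≤ k`, `C k² ≤ log m` and `(log m)^(C k) ≤ y`, the values of the
rational polynomials of total degree at most `m` at the logarithms of the primes up to `y` span a
space of dimension at least `m ^ k`. -/
theorem rank_growth : ∃ C : ℕ, ∀ k y m : ℕ, 1 ≤ k → (C * k ^ 2 : ℝ) ≤ Real.log m →
    Real.log m ^ (C * k) ≤ y →
    m ^ k ≤ Module.finrank ℚ ((MvPolynomial.restrictTotalDegree {p : ℕ // p.Prime ∧ p ≤ y} ℚ m).map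
      (MvPolynomial.aeval fun p : {p : ℕ // p.Prime ∧ p ≤ y} => Real.log (p.1 : ℕ)).toLinearMap) := by
  refine ⟨400, fun k y m hk hm hy => ?_⟩
  have hk' : (1 : ℝ) ≤ (k : ℝ) ^ 2 := one_le_pow₀ (by exact_mod_cast hk)
  have hL : (400 : ℝ) ≤ Real.log m := le_trans (by push_cast; linarith) hm
  have hm0 : m ≠ 0 := by
    rintro rfl
    norm_num at hL
  have hm0' : (0 : ℝ) < m := by exact_mod_cast Nat.pos_of_ne_zero hm0
  have h1 : 2 ^ Nat.log 2 m ≤ m := Nat.pow_log_le_self 2 hm0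
  have h2 : m < 2 ^ (Nat.log 2 m + 1) := Nat.lt_pow_succ_log_self one_lt_two m
  obtain ⟨a, ha⟩ : ∃ a, a = Nat.log 2 m := ⟨_, rfl⟩
  rw [← ha] at h1 h2
  have hl1 := Real.log_two_gt_d9
  have hl2 := Real.log_two_lt_d9
  have ha0 : (0 : ℝ) ≤ a := Nat.cast_nonneg a
  have h3 : (a : ℝ) * Real.log 2 ≤ Real.log m := by
    rw [← Real.log_pow]
    exact Real.log_le_log (by positivity) (by exact_mod_cast h1)
  have h4 : Real.log m ≤ ((a + 1 : ℕ) : ℝ) * Real.log 2 := by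
    rw [← Real.log_pow]
    exact Real.log_le_log hm0' (by exact_mod_cast h2.le)
  push_cast at h4 hm
  refine rk_nat (b := a + 1) hk ?_ (by rw [pow_succ]; omega) h2 ?_
  · have h : (400 : ℝ) * (k : ℝ) ^ 2 ≤ a + 1 := by nlinarith
    exact_mod_cast h
  · have h5 : (a : ℝ) + 1 ≤ Real.log m ^ 2 := by nlinarith
    have h6 : ((a : ℝ) + 1) ^ (25 * k) ≤ y := by
      calc _ ≤ (Real.log m ^ 2) ^ (25 * k) := by gcongr
        _ = Real.log m ^ (50 * k) := by rw [← pow_mul]; congr 1; ring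
        _ ≤ Real.log m ^ (400 * k) := pow_le_pow_right₀ (by linarith) (by omega)
        _ ≤ y := hy
    exact_mod_cast h6

end Pool.Agent.MP_d171e3_nt.H12
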