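import Pool.Agent.MP_d171e3_nt.H12.Fibres

/-! Few tuples of integers have a relation of small degree between their logarithms. -/

namespace Pool.Agent.MP_d171e3_nt.H12

open Finset Submodule MvPolynomial
open Pool.Agent.MP_d171e3_nt.H48 (Grow Dep Rel lg not_rel_zero rel_succ one_mem_one grow_range
  pow_mono_exp rat_mem_pow_zero totalDegree_map_le)

open Classical in
lemma tup_count (m : ℕ) : ∃ C : ℕ, ∀ d X : ℕ, 1 ≤ d → 2 ≤ X →
    (((Fintype.piFinset fun _ : Fin m => Icc 1 X).filter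
      fun n => Rel d 1 fun i => lg (n i)).card : ℝ) ≤
      C * (d : ℝ) ^ C * Real.log X ^ 3 * (X : ℝ) ^ ((m : ℝ) - 1 / (2 * (m : ℝ) + 2)) := by
  induction m with
  | zero =>
    refine ⟨0, fun d X _ _ => ?_⟩
    rw [Finset.filter_false_of_mem (fun n _ => not_rel_zero _ _ _)]
    simp
  | succ m ih =>
    obtain ⟨C1, h1⟩ := ih
    obtain ⟨C2, h2⟩ := fib_count m
    refine ⟨C1 + C2 * 2 ^ C2, fun d X hd hX => ?_⟩
    set T := Fintype.piFinset fun _ : Fin m => Icc 1 X with hT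
    have hX1 : (1 : ℝ) ≤ X := by exact_mod_cast (by omega : 1 ≤ X)
    have hX0 : (0 : ℝ) < X := by linarith
    have hd1 : (1 : ℝ) ≤ d := by exact_mod_cast hd
    have hsub : ((Fintype.piFinset fun _ : Fin (m + 1) => Icc 1 X).filter
        fun n => Rel d 1 fun i => lg (n i)).card ≤
        (Icc 1 X ×ˢ T.filter fun n => Rel d 1 fun i => lg (n i)).card +
        (T.sigma fun n => (Icc 1 X).filter
          fun q => Dep (2 * d) (1 ⊔ span ℚ (Set.range fun i => lg (n i))) (lg q)).card := by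
      rw [← card_disjSum]
      refine card_le_card_of_injOn (fun n => if Rel d 1 (fun i => lg (Fin.tail n i)) then
        Sum.inl (n 0, Fin.tail n) else Sum.inr ⟨Fin.tail n, n 0⟩) ?_ ?_
      · intro n hn
        rw [mem_coe, mem_filter, Fintype.mem_piFinset] at hn
        have ht : Fin.tail n ∈ T := Fintype.mem_piFinset.2 fun i => hn.1 _
        rw [mem_coe]
        beta_reduce
        split_ifs with h
        · rw [inl_mem_disjSum, mem_product, mem_filter]
          exact ⟨hn.1 0, ht, h⟩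
        · rw [inr_mem_disjSum, mem_sigma, mem_filter]
          exact ⟨ht, hn.1 0, (rel_succ one_mem_one hn.2).resolve_left h⟩
      · intro n _ n' _ h
        beta_reduce at h
        have : n 0 = n' 0 ∧ Fin.tail n = Fin.tail n' := by
          split_ifs at h
          · simpa using h
          · simp only [Sum.inr.injEq, Sigma.mk.injEq, heq_eq_eq] at h
            exact ⟨h.2, h.1⟩
        rw [← Fin.cons_self_tail n, ← Fin.cons_self_tail n', this.1, this.2]
    have hTc : T.card = X ^ m := by simp [hT]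
    have hm0 : (0 : ℝ) ≤ m := Nat.cast_nonneg m
    have hlog : 0 ≤ Real.log X := Real.log_nonneg hX1
    obtain ⟨Z, hZ⟩ : ∃ Z : ℝ,
      Z = (X : ℝ) ^ (((m + 1 : ℕ) : ℝ) - 1 / (2 * ((m + 1 : ℕ) : ℝ) + 2)) := ⟨_, rfl⟩
    obtain ⟨Y, hY⟩ : ∃ Y : ℝ, Y = (d : ℝ) ^ (C1 + C2 * 2 ^ C2) := ⟨_, rfl⟩
    have hZ0 : 0 < Z := by rw [hZ]; positivity
    have e1 : ((Icc 1 X ×ˢ T.filter fun n => Rel d 1 fun i => lg (n i)).card : ℝ) ≤
        C1 * Y * Real.log X ^ 3 * Z := by
      rw [card_product, Nat.card_Icc, add_tsub_cancel_right]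
      push_cast
      have h3 := h1 d X hd hX
      have h4 : (d : ℝ) ^ C1 ≤ Y := hY ▸ pow_le_pow_right₀ hd1 (by omega)
      have h5 : (X : ℝ) ^ (1 + ((m : ℝ) - 1 / (2 * (m : ℝ) + 2))) ≤ Z := by
        rw [hZ]
        apply Real.rpow_le_rpow_of_exponent_le hX1
        have := one_div_le_one_div_of_le (show (0 : ℝ) < 2 * m + 2 by positivity)
          (show 2 * (m : ℝ) + 2 ≤ 2 * (m + 1) + 2 by linarith)
        push_cast
        linarith
      calc _ ≤ (X : ℝ) * (C1 * (d : ℝ) ^ C1 * Real.log X ^ 3 *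
            (X : ℝ) ^ ((m : ℝ) - 1 / (2 * (m : ℝ) + 2))) := by gcongr
        _ = C1 * (d : ℝ) ^ C1 * Real.log X ^ 3 *
            (X : ℝ) ^ (1 + ((m : ℝ) - 1 / (2 * (m : ℝ) + 2))) := by
            rw [Real.rpow_add hX0, Real.rpow_one]; ring
        _ ≤ _ := by gcongr; exact hY ▸ by positivity
    have e2 : ((T.sigma fun n => (Icc 1 X).filter
          fun q => Dep (2 * d) (1 ⊔ span ℚ (Set.range fun i => lg (n i))) (lg q)).card : ℝ) ≤
        (C2 * 2 ^ C2 : ℕ) * Y * Real.log X ^ 3 * Z := by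
      rw [card_sigma]
      push_cast
      refine (Finset.sum_le_card_nsmul _ _ _ fun n _ => by
        simpa only [zero_add] using h2 (2 * d) X _ 0 (grow_range _) (by omega) hX).trans ?_
      rw [hTc, nsmul_eq_mul]
      have h4 : (d : ℝ) ^ C2 ≤ Y := hY ▸ pow_le_pow_right₀ hd1
        (le_trans (Nat.le_mul_of_pos_right _ (by positivity)) (Nat.le_add_left _ _))
      have h5 : (X : ℝ) ^ m * (X : ℝ) ^ (1 - 1 / (2 * (m : ℝ) + 4)) = Z := by
        rw [hZ, ← Real.rpow_natCast, ← Real.rpow_add hX0]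
        congr 1
        push_cast
        ring
      push_cast
      calc _ = C2 * 2 ^ C2 * (d : ℝ) ^ C2 * Real.log X ^ 3 *
            ((X : ℝ) ^ m * (X : ℝ) ^ (1 - 1 / (2 * (m : ℝ) + 4))) := by rw [mul_pow]; ring
        _ ≤ _ := by rw [h5]; gcongr
    have e3 : (((Fintype.piFinset fun _ : Fin (m + 1) => Icc 1 X).filter
        fun n => Rel d 1 fun i => lg (n i)).card : ℝ) ≤ _ := Nat.cast_le.2 hsub
    rw [← hZ, ← hY]
    rw [Nat.cast_add] at e3 ⊢
    linarith only [e1, e2, e3]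

theorem uniform_tuples (m : ℕ) : ∃ C : ℕ, ∀ d X : ℕ, 1 ≤ d → 2 ≤ X →
    (({n : Fin m → ℕ | (∀ i, 1 ≤ n i ∧ n i ≤ X) ∧ ∃ F : MvPolynomial (Fin m) ℚ, F ≠ 0 ∧
      F.totalDegree ≤ d ∧ aeval (fun i => Real.log (n i)) F = 0}.ncard : ℕ) : ℝ) ≤
      C * (d : ℝ) ^ C * Real.log X ^ 3 * (X : ℝ) ^ ((m : ℝ) - 1 / (2 * (m : ℝ) + 2)) := by
  classical
  obtain ⟨C, hC⟩ := tup_count m
  refine ⟨C, fun d X hd hX => le_trans (Nat.cast_le.2 ?_) (hC d X hd hX)⟩
  rw [← Set.ncard_coe_finset]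
  refine Set.ncard_le_ncard ?_ (Finset.finite_toSet _)
  rintro n ⟨h1, F, h0, hF, hx⟩
  rw [mem_coe, mem_filter, Fintype.mem_piFinset]
  refine ⟨fun i => mem_Icc.2 (h1 i), map (algebraMap ℚ ℂ) F, ?_,
    (totalDegree_map_le _ _).trans hF, fun α => ?_, ?_⟩
  · exact fun h => h0 (map_injective _ (algebraMap ℚ ℂ).injective (by simpa using h))
  · rw [coeff_map]
    exact pow_mono_exp one_mem_one (Nat.zero_le d) (rat_mem_pow_zero _ _)
  · have := congrArg (IsScalarTower.toAlgHom ℚ ℝ ℂ) hx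
    rw [map_zero, ← AlgHom.comp_apply, comp_aeval] at this
    rw [← eval₂_eq_eval_map, ← aeval_def]
    exact this

end Pool.Agent.MP_d171e3_nt.H12
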