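import Pool.Agent.MP_d171e3_nt.H12.Defs

/-! The zero estimate in one variable over many points. -/

namespace Pool.Agent.MP_d171e3_nt.H12

open MvPolynomial Finset
open Pool.Agent.MP_d171e3_nt.H31

lemma ze_det {σ ρ : Type} [Fintype ρ] [DecidableEq ρ] (M : Matrix ρ ρ (MvPolynomial σ ℂ)) {T : ℕ}
    (h : ∀ i j, (M i j).totalDegree ≤ T) : M.det.totalDegree ≤ Fintype.card ρ * T := by
  rw [Matrix.det_apply']
  refine totalDegree_finsetSum_le fun s _ => (totalDegree_mul _ _).trans ?_
  rw [← map_intCast (C : ℂ →+* MvPolynomial σ ℂ), totalDegree_C, zero_add]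
  refine (totalDegree_finsetProd _ _).trans ?_
  simpa using Finset.sum_le_card_nsmul univ _ T fun i _ => h (s i) i

/-- Cramer's rule over the polynomial ring -/
lemma ze_cramer {σ ρ S F : Type} [Fintype ρ] [DecidableEq ρ] [Fintype S] [Field F]
    (π : MvPolynomial σ ℂ →+* F) (w : S → ρ → MvPolynomial σ ℂ) (c : ρ → MvPolynomial σ ℂ) {T : ℕ}
    (hw : ∀ τ i, (w τ i).totalDegree ≤ T)
    (h : (fun i => π (c i)) ∈ Submodule.span F (Set.range fun τ i => π (w τ i))) :
    ∃ (d : MvPolynomial σ ℂ) (u : S → MvPolynomial σ ℂ), π d ≠ 0 ∧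
      d.totalDegree ≤ Fintype.card ρ * T ∧ ∀ i, π (d * c i) = π (∑ τ, u τ * w τ i) := by
  classical
  let vz : S ⊕ ρ → ρ → MvPolynomial σ ℂ := Sum.elim w fun j => Pi.single j 1
  let v : S ⊕ ρ → ρ → F := fun x i => π (vz x i)
  obtain ⟨s, hs1, -, hs2, hs3⟩ := exists_linearIndepOn_extension (K := F) (v := v)
    (linearIndepOn_empty F v) (Set.empty_subset (Set.range Sum.inl))
  obtain ⟨b, -, hb1, hb2, hb3⟩ := exists_linearIndepOn_extension hs3 (Set.subset_univ s)
  have hsp : ⊤ ≤ Submodule.span F (Set.range fun x : b => v x) := by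
    rw [← (Pi.basisFun F ρ).span_eq, Submodule.span_le]
    rintro _ ⟨j, rfl⟩
    rw [← Set.image_eq_range]
    refine hb2 ⟨Sum.inr j, trivial, ?_⟩
    funext i
    simp [v, vz, Pi.single_apply, apply_ite π]
  let bs : Module.Basis b F (ρ → F) := Module.Basis.mk hb3 hsp
  have hbs : ∀ x : b, bs x = v x := fun x => Module.Basis.mk_apply hb3 hsp x
  let e : ρ ≃ b := (Pi.basisFun F ρ).indexEquiv bs
  let M : Matrix ρ ρ (MvPolynomial σ ℂ) := Matrix.of fun i j => vz (e j) i
  have hli : LinearIndependent F fun j => v (e j) := hb3.comp e e.injective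
  have hdet : π M.det ≠ 0 := by
    have h1 : IsUnit (M.map π) := Matrix.linearIndependent_cols_iff_isUnit.1 hli
    rw [Matrix.isUnit_iff_isUnit_det, ← RingHom.mapMatrix_apply, ← RingHom.map_det] at h1
    exact h1.ne_zero
  have hvz : ∀ x i, (vz x i).totalDegree ≤ T := by
    rintro (τ | j) i
    · exact hw τ i
    · simp only [vz, Sum.elim_inr, Pi.single_apply]
      split_ifs <;> simp
  have hcr : ∀ i, M.det * c i = ∑ j, M.cramer c j * vz (e j) i := fun i => by
    have := congrFun (Matrix.mulVec_cramer M c) i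
    simp only [Matrix.mulVec, dotProduct, Pi.smul_apply, smul_eq_mul] at this
    rw [← this]
    exact Finset.sum_congr rfl fun j _ => mul_comm _ _
  have hz : ∀ j, (e j).1 ∉ s → π (M.cramer c j) = 0 := fun j hj => by
    have h1 : (fun i => π (c i)) ∈ Submodule.span F (v '' s) := by
      refine Submodule.span_le.2 ?_ h
      rintro _ ⟨τ, rfl⟩
      exact hs2 ⟨Sum.inl τ, ⟨τ, rfl⟩, rfl⟩
    have h2 : bs.coord (e j) (fun i => π (c i)) = 0 := by
      refine (Submodule.span_le (p := LinearMap.ker (bs.coord (e j)))).2 ?_ h1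
      rintro _ ⟨x, hx, rfl⟩
      have : v x = bs ⟨x, hb1 hx⟩ := (hbs ⟨x, hb1 hx⟩).symm
      rw [SetLike.mem_coe, LinearMap.mem_ker, this, Module.Basis.coord_apply, bs.repr_self,
        Finsupp.single_eq_of_ne]
      intro h3
      exact hj (h3 ▸ hx)
    have h3 : π M.det • (fun i => π (c i)) = ∑ j, π (M.cramer c j) • bs (e j) := by
      funext i
      simp only [Pi.smul_apply, smul_eq_mul, Finset.sum_apply, hbs, v]
      rw [← map_mul, hcr, map_sum]
      simp only [map_mul]
    have h4 := congrArg (bs.coord (e j)) h3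
    rw [map_smul, h2, smul_zero, map_sum, Finset.sum_eq_single j] at h4
    · simpa using h4.symm
    · intro j' _ hj'
      rw [map_smul, Module.Basis.coord_apply, bs.repr_self, Finsupp.single_eq_of_ne, smul_zero]
      exact fun h5 => hj' (e.injective h5).symm
    · simp
  refine ⟨M.det, fun τ => ∑ j, if (e j).1 = Sum.inl τ then M.cramer c j else 0, hdet,
    ze_det M fun i j => hvz _ _, fun i => ?_⟩
  rw [hcr]
  simp only [Finset.sum_mul, map_sum]
  rw [Finset.sum_comm]
  refine Finset.sum_congr rfl fun j _ => ?_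
  by_cases hj : (e j).1 ∈ s
  · obtain ⟨τ, hτ⟩ := hs1 hj
    rw [Finset.sum_eq_single τ]
    · simp only [← hτ, if_true]; rfl
    · intro τ' _ h'
      rw [if_neg, zero_mul, map_zero]
      rw [← hτ]
      exact fun h5 => h' (Sum.inl_injective h5).symm
    · simp
  · rw [map_mul, hz j hj, zero_mul]
    refine (Finset.sum_eq_zero fun τ _ => ?_).symm
    split_ifs
    · rw [map_mul, hz j hj, zero_mul]
    · rw [zero_mul, map_zero]

/-- counting zeros in one variable -/
lemma ze_count {ρ : Type} [Fintype ρ] (ξ : ρ → Fin 1 → ℂ) (hξ : Function.Injective ξ)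
    {f : MvPolynomial (Fin 1) ℂ} (hf : f ≠ 0) {o : ℕ} (h : ∀ i, f ∈ mx (ξ i) ^ o) :
    Fintype.card ρ * o ≤ f.totalDegree := by
  let ψ : MvPolynomial (Fin 1) ℂ →ₐ[ℂ] Polynomial ℂ := aeval fun _ => Polynomial.X
  have hev : ∀ (x : Fin 1 → ℂ) g, (ψ g).eval (x 0) = eval x g := by
    intro x g
    have : (Polynomial.aeval (x 0)).comp ψ = aeval x := by
      ext l
      simp [ψ, Subsingleton.elim l 0]
    simpa using DFunLike.congr_fun this g
  have h0 : ψ f ≠ 0 := fun h0 => hf (MvPolynomial.funext fun x => by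
    rw [← hev, h0]; simp)
  have h1 : ∀ i, (Polynomial.X - Polynomial.C (ξ i 0)) ^ o ∣ ψ f := by
    intro i
    have h2 : Ideal.map ψ (mx (ξ i)) ≤ Ideal.span {Polynomial.X - Polynomial.C (ξ i 0)} := by
      rw [Ideal.map_le_iff_le_comap]
      intro g hg
      rw [Ideal.mem_comap, Ideal.mem_span_singleton, Polynomial.dvd_iff_isRoot, Polynomial.IsRoot,
        hev]
      exact mem_mx.1 hg
    have h3 := Ideal.mem_map_of_mem ψ (h i)
    rw [Ideal.map_pow] at h3
    have h4 := Ideal.pow_right_mono h2 o h3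
    rwa [Ideal.span_singleton_pow, Ideal.mem_span_singleton] at h4
  have hinj : Function.Injective fun i => ξ i 0 := fun i j hij =>
    hξ (funext fun l => by rw [Subsingleton.elim l 0]; exact hij)
  have h2 := Fintype.prod_dvd_of_coprime
    (fun i j hij => (Polynomial.pairwise_coprime_X_sub_C hinj hij).pow) h1
  have h3 := Polynomial.natDegree_le_of_dvd h2 h0
  rw [Polynomial.natDegree_prod_of_monic _ _
    fun i _ => (Polynomial.monic_X_sub_C _).pow _] at h3
  simp only [Polynomial.natDegree_pow, Polynomial.natDegree_X_sub_C, mul_one, sum_const, card_univ,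
    smul_eq_mul] at h3
  refine h3.trans ?_
  simpa using aeval_natDegree_le f le_rfl (fun _ : Fin 1 => (Polynomial.X : Polynomial ℂ))
    (n := 1) fun _ => Polynomial.natDegree_X_le

/-- the linear factors are multiplicatively independent modulo constants -/
lemma ze_indep {κ F : Type} [Fintype κ] [DecidableEq κ] [Field F] [Algebra ℂ F]
    (π : MvPolynomial (Fin 1) ℂ →ₐ[ℂ] F) (hπ : RingHom.ker π = ⊥) (a : κ → Fin 1 → ℤ)
    (ha : Function.Injective fun j => a j 0) (ha0 : ∀ j, a j 0 ≠ 0) :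
    (∀ j, π (uu a j) ≠ 0) ∧
      ∀ m : κ → ℤ, ∏ j, π (uu a j) ^ m j ∈ (algebraMap ℂ F).range → m = 0 := by
  have hl : ∀ (x : Fin 1 → ℂ) j, eval x (uu a j) = 1 + a j 0 * x 0 := fun x j => by
    rw [eval_uu, lin, Fin.sum_univ_one]
  have hu : ∀ j, π (uu a j) ≠ 0 := fun j h0 => by
    have h1 : uu a j ∈ RingHom.ker π := h0
    rw [hπ, Ideal.mem_bot] at h1
    have := hl 0 j
    simp [h1] at this
  refine ⟨hu, ?_⟩
  rintro m ⟨c, hc⟩
  have hc0 : c ≠ 0 := by
    rintro rfl
    rw [map_zero] at hc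
    exact Finset.prod_ne_zero_iff.2 (fun j _ => zpow_ne_zero _ (hu j)) hc.symm
  have h1 : C c * ∏ j, uu a j ^ (-m j).toNat - ∏ j, uu a j ^ (m j).toNat ∈ RingHom.ker π := by
    rw [RingHom.mem_ker, map_sub, map_mul, map_prod, map_prod, ← algebraMap_eq, AlgHom.commutes, hc]
    simp only [map_pow]
    rw [prod_zpow_split m _ hu, sub_self]
  rw [hπ, Ideal.mem_bot, sub_eq_zero] at h1
  funext j
  have hj : (a j 0 : ℂ) ≠ 0 := by exact_mod_cast ha0 j
  have h2 := congrArg (eval fun _ => -(a j 0 : ℂ)⁻¹) h1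
  simp only [map_mul, map_prod, map_pow, eval_C, hl] at h2
  have h3 : ∀ i, i ≠ j → (1 : ℂ) + a i 0 * -(a j 0 : ℂ)⁻¹ ≠ 0 := fun i hi h0 => hi (ha (by
    have : (a i 0 : ℂ) = a j 0 := by field_simp at h0; linear_combination -h0
    exact_mod_cast this))
  have h4 : (1 : ℂ) + a j 0 * -(a j 0 : ℂ)⁻¹ = 0 := by field_simp; ring
  rw [← Finset.mul_prod_erase _ _ (mem_univ j), ← Finset.mul_prod_erase _ _ (mem_univ j), h4] at h2
  have h5 : ∀ e : κ → ℕ, ∏ i ∈ univ.erase j, ((1 : ℂ) + a i 0 * -(a j 0 : ℂ)⁻¹) ^ e i ≠ 0 :=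
    fun e => Finset.prod_ne_zero_iff.2 fun i hi => pow_ne_zero _ (h3 i (ne_of_mem_erase hi))
  rcases lt_trichotomy (m j) 0 with h | h | h
  · rw [zero_pow (by omega), show (m j).toNat = 0 by omega] at h2
    simp only [zero_mul, mul_zero, pow_zero, one_mul] at h2
    exact absurd h2.symm (h5 _)
  · exact h
  · rw [zero_pow (n := (m j).toNat) (by omega), show (-m j).toNat = 0 by omega] at h2
    simp only [zero_mul, pow_zero, one_mul] at h2
    exact absurd h2 (mul_ne_zero hc0 (h5 _))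

/-- Cramer's rule for polynomials supported in a box -/
lemma ze_box {σ κ S F : Type} [Fintype κ] [DecidableEq κ] [Fintype S] [Field F]
    (π : MvPolynomial σ ℂ →+* F) {D T : ℕ} (hD : 1 ≤ D) (v : S → MvPolynomial κ (MvPolynomial σ ℂ))
    (hbox : ∀ s, ∀ α ∈ (v s).support, ∀ j, α j < D) (hv : ∀ s α, (coeff α (v s)).totalDegree ≤ T)
    (h : (1 : MvPolynomial κ F) ∈ Submodule.span F (Set.range fun s => map π (v s))) :
    ∃ (Δ : MvPolynomial σ ℂ) (b : S → MvPolynomial σ ℂ), π Δ ≠ 0 ∧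
      Δ.totalDegree ≤ D ^ Fintype.card κ * T ∧ ∀ α, π (coeff α (C Δ - ∑ s, C (b s) * v s)) = 0 := by
  classical
  let f : (κ → Fin D) → (κ →₀ ℕ) := fun e => Finsupp.equivFunOnFinite.symm fun j => (e j : ℕ)
  obtain ⟨c, hc⟩ := (Submodule.mem_span_range_iff_exists_fun F).1 h
  obtain ⟨Δ, b, h1, h2, h3⟩ := ze_cramer π (fun s e => coeff (f e) (v s))
    (fun e => coeff (f e) (1 : MvPolynomial κ (MvPolynomial σ ℂ))) (fun s e => hv s _)
    ((Submodule.mem_span_range_iff_exists_fun F).2 ⟨c, funext fun e => by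
      have := congrArg (coeff (f e)) hc
      rw [← map_one (map π)] at this
      simpa only [coeff_sum, coeff_smul, coeff_map, Finset.sum_apply, Pi.smul_apply] using this⟩)
  refine ⟨Δ, b, h1, by simpa using h2, fun α => ?_⟩
  rw [coeff_sub, ← mul_one (C Δ), coeff_C_mul, coeff_sum]
  simp only [coeff_C_mul]
  by_cases hα : ∀ j, α j < D
  · have : α = f fun j => ⟨α j, hα j⟩ := by ext j; rfl
    rw [map_sub, this, h3, sub_self]
  · have h4 : ∀ s, coeff α (v s) = 0 := fun s => notMem_support_iff.1 fun h => hα (hbox s α h)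
    have h5 : (0 : κ →₀ ℕ) ≠ α := fun h => hα fun j => by rw [← h]; exact hD
    simp [h4, coeff_one, h5]

theorem ze1 {κ : Type} [Fintype κ] [DecidableEq κ] (a : κ → Fin 1 → ℤ)
    (ha : Function.Injective fun j => a j 0) (ha0 : ∀ j, a j 0 ≠ 0) {D : ℕ} (hD : 1 ≤ D) :
    ∃ c : ℕ, ∀ {ρ : Type} [Fintype ρ] (ξ : ρ → Fin 1 → ℂ), Function.Injective ξ →
      (∀ i j, 1 + lin a (ξ i) j ≠ 0) →
      ∀ (k : ℕ) (p : (Fin 1 → Fin k) × (κ → Fin D) → ℤ), p ≠ 0 →
      ∀ o : ℕ, D ^ Fintype.card κ * (k + c) < Fintype.card ρ * o →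
      ∀ (I : Finset (κ →₀ ℕ)) (φ : ρ → (κ →₀ ℕ) → ℂ), 0 ∈ I → (∀ i, φ i 0 = 1) →
        ∃ (i : ρ) (τ : Fin 1 →₀ ℕ), τ.degree < o + D ^ Fintype.card κ ∧
          ∑ γ ∈ I, φ i γ * coeff τ (coeff γ (jet a p (ξ i) (o + D ^ Fintype.card κ))) ≠ 0 := by
  classical
  set n := Fintype.card κ with hn
  set M := D ^ n with hM
  obtain ⟨F, _, _, π, hker, hπ⟩ := exists_field (⊥ : Ideal (MvPolynomial (Fin 1) ℂ))
  have hdep := dep_of_hf π hπ (fun e => ⟨e + 1, by
    have := curve_a 0 1 Fin.elim0 (fun j => j.elim0) (RingHom.ker π) (fun j => j.elim0)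
      (e * (e + 1))
    rw [pow_zero, one_mul] at this
    exact this.trans_lt (by nlinarith)⟩)
  obtain ⟨hu0, hu⟩ := ze_indep π hker a ha ha0
  have hne' : ∃ x : F, x ∉ (algebraMap ℂ F).range := by
    refine ⟨π (X 0), fun ⟨c, hc⟩ => ?_⟩
    have h0 : X 0 - C c ∈ RingHom.ker π := by
      rw [RingHom.mem_ker, map_sub, ← hc, ← algebraMap_eq, AlgHom.commutes, sub_self]
    rw [hker, Ideal.mem_bot] at h0
    have := congrArg (eval fun _ => c + 1) h0
    simp at this
  obtain ⟨d, hd⟩ := exists_der π hπ hdep hne'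
  obtain ⟨A, g, hg, hfg⟩ := hπ (d (π (X 0)))
  have hAd : π A = π g * d (π (X 0)) := by rw [hfg]; field_simp
  set δ : Derivation ℂ (MvPolynomial (Fin 1) ℂ) (MvPolynomial (Fin 1) ℂ) := A • pderiv 0 with hδ
  have hδa : ∀ h, δ h = A * pderiv 0 h := fun h => rfl
  have hδπ : ∀ h, π (δ h) = π g * d (π h) := by
    intro h
    induction h using MvPolynomial.induction_on with
    | C c =>
      rw [← algebraMap_eq, δ.map_algebraMap, AlgHom.commutes, d.map_algebraMap]; simp
    | add p q hp hq => simp only [map_add, hp, hq, mul_add]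
    | mul_X p l hp =>
      obtain rfl : l = 0 := Subsingleton.elim _ _
      have : δ (X 0) = A := by rw [hδa]; simp
      simp only [Derivation.leibniz, map_add, map_mul, smul_eq_mul, hp, this, hAd]
      ring
  have hδdeg : ∀ h, (δ h).totalDegree ≤ h.totalDegree + A.totalDegree := by
    intro h
    rw [hδa]
    have e1 := totalDegree_pderiv_le' 0 h
    exact (totalDegree_mul _ _).trans (by omega)
  set G : F := ∏ j, π (uu a j) with hG
  have hG0 : G ≠ 0 := Finset.prod_ne_zero_iff.2 fun j _ => hu0 j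
  set d' : Derivation ℂ F F := (G * π g) • d with hd'
  have hd'c : ∀ x, d' x = 0 → x ∈ (algebraMap ℂ F).range := by
    intro x hx
    rw [hd', Derivation.smul_apply, smul_eq_mul] at hx
    exact hd x ((mul_eq_zero.1 hx).resolve_left (mul_ne_zero hG0 hg))
  set v' : κ → F := fun j => d' (π (uu a j)) / π (uu a j) with hv'
  have hmap : ∀ Q, map (π : MvPolynomial (Fin 1) ℂ →+* F) (DR a δ Q) =
      DD d' v' (map (π : MvPolynomial (Fin 1) ℂ →+* F) Q) := by
    intro Q
    rw [DR, map_DD _ _ d']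
    · congr 1
      funext j
      have := hu0 j
      simp only [hv', hd', hG, RingHom.coe_coe, map_mul, map_prod, hδπ, Derivation.smul_apply,
        smul_eq_mul]
      rw [← Finset.mul_prod_erase _ _ (mem_univ j)]
      field_simp
    · intro h
      simp only [hd', hG, RingHom.coe_coe, map_mul, map_prod, hδπ, Derivation.smul_apply,
        smul_eq_mul]
      ring
  have hko := ko d' hd'c (finite_over π hπ hdep) (fun j => π (uu a j)) hu0 hu
  refine ⟨M * (n + 1 + A.totalDegree), fun {ρ} _ ξ hinj hne k p hp o ho I φ h0 hφ => ?_⟩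
  by_contra hcon
  push Not at hcon
  have hlink := fun i => jet_link a p (ξ i) (o + M) I (φ i) (hcon i)
  have hP0 := ev_ne_zero hp
  have hPdeg := ev_totalDegree p
  have hPbox := ev_support p (X : Fin 1 → MvPolynomial (Fin 1) ℂ) (fun _ => 0)
  rw [show (fun j : κ => (X j + C 0 : MvPolynomial κ (MvPolynomial (Fin 1) ℂ))) = X from
    funext fun j => by rw [map_zero, add_zero]] at hPbox
  rw [Fintype.card_fin, one_mul] at hPdeg
  generalize (ev p (fun l => C (X l)) X : MvPolynomial κ (MvPolynomial (Fin 1) ℂ)) = P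
    at hlink hP0 hPdeg hPbox
  have hπi : Function.Injective (π : MvPolynomial (Fin 1) ℂ →+* F) :=
    (RingHom.injective_iff_ker_eq_bot _).2 hker
  have hone := one_mem_span_iter d' v' hd'c hko D (map (π : MvPolynomial (Fin 1) ℂ →+* F) P)
    (fun h => hP0 (map_injective _ hπi (by rw [h, map_zero])))
    (fun α hα => hPbox α (support_map_subset _ _ hα))
  have hiter : ∀ s : ℕ, map (π : MvPolynomial (Fin 1) ℂ →+* F) ((DR a δ)^[s] P) =
      (DD d' v')^[s] (map (π : MvPolynomial (Fin 1) ℂ →+* F) P) := by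
    intro s
    induction s with
    | zero => rfl
    | succ s ih => rw [Function.iterate_succ_apply', Function.iterate_succ_apply', hmap, ih]
  have hitdeg : ∀ (s : ℕ) α, (coeff α ((DR a δ)^[s] P)).totalDegree ≤
      k + s * (n + 1 + A.totalDegree) := by
    intro s
    induction s with
    | zero => intro α; simpa using hPdeg α
    | succ s ih =>
      intro α
      rw [Function.iterate_succ_apply']
      exact (DR_deg a δ hδdeg ih α).trans (le_of_eq (by rw [← hn]; ring))
  have hitbox : ∀ s : ℕ, ∀ α ∈ ((DR a δ)^[s] P).support, ∀ j, α j < D := by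
    intro s
    induction s with
    | zero => exact hPbox
    | succ s ih => rw [Function.iterate_succ_apply']; exact DD_box _ _ ih
  obtain ⟨Δ, bb, hΔ0, hΔdeg, hΔeq⟩ := ze_box (π : MvPolynomial (Fin 1) ℂ →+* F) hD
    (T := k + M * (n + 1 + A.totalDegree)) (fun s : Fin M => (DR a δ)^[s] P) (fun s => hitbox s)
    (fun s α => (hitdeg s α).trans (by gcongr; exact s.2.le))
    (by simpa only [hiter] using hone)
  have hmem : ∀ i, Δ ∈ mx (ξ i) ^ o := by
    intro i
    rw [← bot_sup_eq (mx (ξ i) ^ o)]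
    refine ctr_shift_comb I (φ i) (LL a (ξ i) (o + M)) h0 (hφ i) _ _ Δ bb
      (fun s => (DR a δ)^[s] P) (fun s => ?_) (fun α => ?_)
    · have e1 := words_lower a (ξ i) (hne i) I (φ i) P (hlink i) (List.replicate s δ)
      have e2 : (List.replicate s δ).foldr (fun δ Q => DR a δ Q) P = (DR a δ)^[s] P := by
        induction (s : ℕ) with
        | zero => rfl
        | succ s ih => rw [List.replicate_succ, List.foldr_cons, ih, Function.iterate_succ_apply']
      rw [e2] at e1
      refine Ideal.pow_le_pow_right ?_ e1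
      have := s.2
      simp only [List.length_replicate]
      omega
    · rw [← hker, RingHom.mem_ker]
      exact hΔeq α
  have := ze_count ξ hinj (fun h => hΔ0 (by rw [h, map_zero])) hmem
  exact absurd (this.trans hΔdeg) (not_le.2 ho)

end Pool.Agent.MP_d171e3_nt.H12
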